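import Pool.Agent.Zk60.DL.Main
import Pool.Agent.H4R2.LO.Main

/-! # Both edges, complex functions, probability of bad sites -/

set_option autoImplicit false

open scoped BigOperators ENNReal
open MeasureTheory

namespace Pool.Agent.Zk60.DL.Edge

open Pool.Agent.H4R2.AE Pool.Agent.H541R3.AND.Heat Pool.Agent.H541R3.AND.Trans
open Pool.Agent.H541R3.AND.Deloc
open Pool.Agent.H4R2.LO.Main (sgn sgn_add sgn_sub sgn_norm)

/-- `-Δ + λ ω` on complex functions -/
noncomputable def HC {d : ℕ} (lam : ℝ) (ω : Zd d → ℝ) (u : Zd d → ℂ) (x : Zd d) : ℂ :=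
  -∑ i : Fin d, ((u (x + Pi.single i 1) - u x) + (u (x - Pi.single i 1) - u x)) +
    ((lam * ω x : ℝ) : ℂ) * u x

theorem re_eq {d : ℕ} (lam E : ℝ) (ω : Zd d → ℝ) (u : Zd d → ℂ)
    (h : ∀ x, HC lam ω u x = (E : ℂ) * u x) :
    (∀ x, HZ lam ω (fun y => (u y).re) x = E * (u x).re) ∧
      ∀ x, HZ lam ω (fun y => (u y).im) x = E * (u x).im := by
  have e : ∀ x, (∑ i : Fin d, (2 * u x - u (x + Pi.single i 1) - u (x - Pi.single i 1))) +
      ((lam * ω x : ℝ) : ℂ) * u x = (E : ℂ) * u x := by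
    intro x
    rw [← h x]
    unfold HC
    rw [← Finset.sum_neg_distrib]
    congr 1
    exact Finset.sum_congr rfl fun i _ => by ring
  constructor
  · intro x
    have := congrArg Complex.re (e x)
    rw [Complex.add_re, Complex.re_sum, Complex.re_ofReal_mul, Complex.re_ofReal_mul] at this
    rw [← this]
    unfold HZ
    congr 1
    refine Finset.sum_congr rfl fun i _ => ?_
    simp
  · intro x
    have := congrArg Complex.im (e x)
    rw [Complex.add_im, Complex.im_sum, Complex.im_ofReal_mul, Complex.im_ofReal_mul] at this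
    rw [← this]
    unfold HZ
    congr 1
    refine Finset.sum_congr rfl fun i _ => ?_
    simp

theorem iter_real {d : ℕ} (lam : ℝ) (ω : Zd d → ℝ) (x0 : Zd d) (n : ℕ) :
    (HC lam ω)^[n] (Pi.single x0 1) =
      fun x => (((HZ lam ω)^[n] (Pi.single x0 1) x : ℝ) : ℂ) := by
  induction n with
  | zero =>
    funext x
    simp only [Function.iterate_zero, id]
    by_cases hx : x = x0
    · subst hx; simp
    · rw [Pi.single_eq_of_ne hx, Pi.single_eq_of_ne hx]; simp
  | succ n ih =>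
    rw [Function.iterate_succ_apply', Function.iterate_succ_apply', ih]
    funext x
    unfold HC HZ
    push_cast
    rw [← Finset.sum_neg_distrib]
    congr 1
    exact Finset.sum_congr rfl fun i _ => by ring

theorem flip {d : ℕ} (lam E : ℝ) (ω : Zd d → ℝ) (u : Zd d → ℂ)
    (h : ∀ x, HC lam ω u x = (E : ℂ) * u x) :
    ∀ x, HC lam (fun y => -ω y) (fun y => sgn y * u y) x =
      ((4 * d - E : ℝ) : ℂ) * (sgn x * u x) := by
  intro x
  have h1 := h x
  unfold HC at h1 ⊢
  have e1 : ∑ i : Fin d, ((sgn (x + Pi.single i 1) * u (x + Pi.single i 1) - sgn x * u x) +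
      (sgn (x - Pi.single i 1) * u (x - Pi.single i 1) - sgn x * u x)) =
      -sgn x * ∑ i : Fin d, ((u (x + Pi.single i 1) - u x) + (u (x - Pi.single i 1) - u x)) -
      4 * (d : ℂ) * (sgn x * u x) := by
    have e2 : ∀ i : Fin d, ((sgn (x + Pi.single i 1) * u (x + Pi.single i 1) - sgn x * u x) +
      (sgn (x - Pi.single i 1) * u (x - Pi.single i 1) - sgn x * u x)) =
        -sgn x * ((u (x + Pi.single i 1) - u x) + (u (x - Pi.single i 1) - u x)) -
          4 * (sgn x * u x) := by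
      intro i
      rw [sgn_add, sgn_sub]
      ring
    rw [Finset.sum_congr rfl fun i _ => e2 i, Finset.sum_sub_distrib, ← Finset.mul_sum]
    simp
    ring
  rw [e1]
  push_cast at h1 ⊢
  linear_combination (-sgn x) * h1

/-- the eigenfunction bound for complex eigenfunctions -/
theorem eig_complex {d : ℕ} (lam E B : ℝ) (ω : Zd d → ℝ) (x0 : Zd d)
    (hB : ∀ φ : Zd d → ℝ, Summable (fun x => φ x ^ 2) →
        (∀ x, HZ lam ω φ x = E * φ x) → φ x0 ^ 2 ≤ B * ∑' x, φ x ^ 2)
    (u : Zd d → ℂ) (hu : Summable fun x => ‖u x‖ ^ 2) (h : ∀ x, HC lam ω u x = (E : ℂ) * u x) :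
    ‖u x0‖ ^ 2 ≤ B * ∑' x, ‖u x‖ ^ 2 := by
  have hn : ∀ x, ‖u x‖ ^ 2 = (u x).re ^ 2 + (u x).im ^ 2 := by
    intro x
    rw [← Complex.normSq_eq_norm_sq, Complex.normSq_apply]
    ring
  have s1 : Summable fun x => (u x).re ^ 2 :=
    Summable.of_nonneg_of_le (fun x => sq_nonneg _)
      (fun x => by rw [hn x]; nlinarith [sq_nonneg (u x).im]) hu
  have s2 : Summable fun x => (u x).im ^ 2 :=
    Summable.of_nonneg_of_le (fun x => sq_nonneg _)
      (fun x => by rw [hn x]; nlinarith [sq_nonneg (u x).re]) hu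
  obtain ⟨h1, h2⟩ := re_eq lam E ω u h
  have a1 := hB _ s1 h1
  have a2 := hB _ s2 h2
  rw [tsum_congr hn, s1.tsum_add s2, hn x0, mul_add]
  exact add_le_add a1 a2

/-- real staggered sign -/
noncomputable def sg {d : ℕ} (x : Zd d) : ℝ := ((-1 : ℝ) ^ (∑ i, x i))

theorem sg_add {d : ℕ} (x : Zd d) (i : Fin d) : sg (x + Pi.single i 1) = -sg x := by
  unfold sg
  have h : ∑ j, (x + Pi.single i 1 : Zd d) j = (∑ j, x j) + 1 := by
    simp [Finset.sum_add_distrib]
  rw [h, zpow_add_one₀ (by norm_num)]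
  ring

theorem sg_sub {d : ℕ} (x : Zd d) (i : Fin d) : sg (x - Pi.single i 1) = -sg x := by
  have h := sg_add (x - Pi.single i 1) i
  rw [sub_add_cancel] at h
  rw [h, neg_neg]

theorem sg_sq {d : ℕ} (x : Zd d) : sg x * sg x = 1 := by
  unfold sg
  rw [← zpow_add₀ (by norm_num), ← two_mul, zpow_mul]
  norm_num

/-- staggering of the iterates -/
theorem stag_iter {d : ℕ} (lam : ℝ) (ω : Zd d → ℝ) (x0 : Zd d) (n : ℕ) :
    (QZ (4 * (d : ℝ) - 1) 1 lam ω)^[n] (Pi.single x0 1) = fun x => sg x * sg x0 *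
      (HZ lam (fun y => -ω y))^[n] (Pi.single x0 1) x := by
  induction n with
  | zero =>
    funext x
    simp only [Function.iterate_zero, id]
    by_cases hx : x = x0
    · subst hx; rw [sg_sq, one_mul]
    · rw [Pi.single_eq_of_ne hx, mul_zero]
  | succ n ih =>
    rw [Function.iterate_succ_apply', Function.iterate_succ_apply', ih]
    funext x
    set f := (HZ lam (fun y => -ω y))^[n] (Pi.single x0 1) with hf
    unfold QZ HZ
    have e : ∑ i : Fin d, (2 * (sg x * sg x0 * f x) - sg (x + Pi.single i 1) * sg x0 *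
        f (x + Pi.single i 1) - sg (x - Pi.single i 1) * sg x0 * f (x - Pi.single i 1)) =
        4 * (d : ℝ) * (sg x * sg x0 * f x) - sg x * sg x0 *
          ∑ i : Fin d, (2 * f x - f (x + Pi.single i 1) - f (x - Pi.single i 1)) := by
      have e2 : ∀ i : Fin d, (2 * (sg x * sg x0 * f x) - sg (x + Pi.single i 1) * sg x0 *
        f (x + Pi.single i 1) - sg (x - Pi.single i 1) * sg x0 * f (x - Pi.single i 1)) =
          4 * (sg x * sg x0 * f x) - sg x * sg x0 *
            (2 * f x - f (x + Pi.single i 1) - f (x - Pi.single i 1)) := by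
        intro i
        rw [sg_add, sg_sub]
        ring
      rw [Finset.mul_sum, Finset.sum_congr rfl fun i _ => e2 i, Finset.sum_sub_distrib,
        Finset.sum_const, Finset.card_univ, Fintype.card_fin, nsmul_eq_mul]
      ring
    rw [e]
    ring

/-- the reflected spectral measure -/
theorem reflect {d : ℕ} (lam : ℝ) (ω : Zd d → ℝ) (x0 : Zd d) (m : Measure ℝ) [IsFiniteMeasure m]
    (hm : ∀ j : ℕ, Integrable (fun E : ℝ => E ^ j) m ∧
      ∫ E, E ^ j ∂m = (HZ lam ω)^[j] (Pi.single x0 1) x0) (j : ℕ) :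
    Integrable (fun E : ℝ => E ^ j) (m.map fun E => 4 * (d : ℝ) - E) ∧
      ∫ E, E ^ j ∂(m.map fun E => 4 * (d : ℝ) - E) =
        (HZ lam (fun y => -ω y))^[j] (Pi.single x0 1) x0 := by
  have hme : Measurable fun E : ℝ => 4 * (d : ℝ) - E := by fun_prop
  have h1 := moments (4 * (d : ℝ) - 1) 1 lam ω x0 m hm j 0
  simp only [pow_zero, one_mul, Function.iterate_zero, id] at h1
  have e : (fun E : ℝ => q (4 * (d : ℝ) - 1) 1 E ^ j) = fun E => (4 * (d : ℝ) - E) ^ j := by
    funext E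
    unfold q
    congr 1
    ring
  rw [e] at h1
  constructor
  · rw [integrable_map_measure (by fun_prop) hme.aemeasurable]
    exact h1.1
  · rw [integral_map hme.aemeasurable (by fun_prop), h1.2, stag_iter]
    show sg x0 * sg x0 * _ = _
    rw [sg_sq, one_mul]

/-- both edges -/
theorem two (d : ℕ) (hd : 2 ≤ d) (K : ℝ) (hK : 0 ≤ K) (C0 : ℝ) (hC0 : 0 < C0)
    (hD : Tor.Decay d (2 * (4 * (d : ℝ) + 1) + 2 * (K + 2)) C0) : ∃ C : ℝ, 0 < C ∧
    ∀ (h : ℕ) (lam Em E' : ℝ) (ω : Zd d → ℝ) (x0 : Zd d), 0 < h → GoodAt h lam K Em ω x0 →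
      GoodAt h lam K E' (fun y => -ω y) x0 → ∀ κ : ℝ, (d : ℝ) / (h : ℝ) ^ 2 ≤ κ → κ ≤ 1 →
      (∀ (E : ℝ) (u : Zd d → ℂ), (E ≤ Em + κ ∨ 4 * d - E' - κ ≤ E) →
        (Summable fun x => ‖u x‖ ^ 2) → (∀ y, HC lam ω u y = (E : ℂ) * u y) →
          ‖u x0‖ ^ 2 ≤ C * κ ^ ((d : ℝ) / 2) * ∑' y, ‖u y‖ ^ 2) ∧
      ∀ m : Measure ℝ, IsFiniteMeasure m → (∀ j : ℕ, Integrable (fun E : ℝ => E ^ j) m ∧
        ((∫ E, E ^ j ∂m : ℝ) : ℂ) = (HC lam ω)^[j] (Pi.single x0 1) x0) →
          m.real (Set.Iic (Em + κ)) ≤ C * κ ^ ((d : ℝ) / 2) ∧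
          m.real (Set.Ici (4 * d - E' - κ)) ≤ C * κ ^ ((d : ℝ) / 2) := by
  obtain ⟨C, hC, H⟩ := Main.main d hd K hK C0 hC0 hD
  refine ⟨C, hC, ?_⟩
  intro h lam Em E' ω x0 hpos g1 g2 κ hκ hκ1
  obtain ⟨D1, D2⟩ := H h lam Em ω x0 hpos g1 κ hκ hκ1
  obtain ⟨D3, D4⟩ := H h lam E' (fun y => -ω y) x0 hpos g2 κ hκ hκ1
  refine ⟨fun E u hE hu hEu => ?_, fun m hmf hm => ?_⟩
  · rcases hE with hE | hE
    · exact eig_complex lam E _ ω x0 (fun φ hφ hφE => D1 E hE φ hφ hφE) u hu hEu
    · have hf := flip lam E ω u hEu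
      have hn : ∀ y, ‖sgn y * u y‖ = ‖u y‖ := fun y => by rw [norm_mul, sgn_norm, one_mul]
      have hu' : Summable fun y => ‖sgn y * u y‖ ^ 2 := by
        simp only [hn]
        exact hu
      have := eig_complex lam (4 * d - E) _ (fun y => -ω y) x0
        (fun φ hφ hφE => D3 (4 * d - E) (by linarith) φ hφ hφE) _ hu' hf
      simpa only [hn] using this
  · have hm' : ∀ j : ℕ, Integrable (fun E : ℝ => E ^ j) m ∧
        ∫ E, E ^ j ∂m = (HZ lam ω)^[j] (Pi.single x0 1) x0 := by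
      intro j
      refine ⟨(hm j).1, ?_⟩
      have h5 := (hm j).2
      rw [iter_real] at h5
      exact Complex.ofReal_injective h5
    refine ⟨D2 m hmf hm', ?_⟩
    have hme : Measurable fun E : ℝ => 4 * (d : ℝ) - E := by fun_prop
    have hfin : IsFiniteMeasure (m.map fun E => 4 * (d : ℝ) - E) :=
      Measure.isFiniteMeasure_map m _
    have h1 := D4 (m.map fun E => 4 * (d : ℝ) - E) hfin (reflect lam ω x0 m hm')
    rw [map_measureReal_apply hme measurableSet_Iic] at h1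
    have e : (fun E : ℝ => 4 * (d : ℝ) - E) ⁻¹' Set.Iic (E' + κ) =
        Set.Ici (4 * d - E' - κ) := by
      ext E
      simp only [Set.mem_preimage, Set.mem_Iic, Set.mem_Ici]
      constructor <;> intro hh <;> linarith
    rwa [e] at h1

/-- probability that a site is bad -/
theorem bad_prob {d : ℕ} (μ : Measure ℝ) [IsProbabilityMeasure μ] (h : ℕ)
    (G : Set (T d (2 * h + 1) → ℝ)) (hG : MeasurableSet G) (x : Zd d) :
    (Measure.infinitePi fun _ : Zd d => μ).real {ω | VT h ω x ∉ G} =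
      (Measure.pi fun _ : T d (2 * h + 1) => μ).real Gᶜ := by
  have hinj : Function.Injective fun t : T d (2 * h + 1) => x + lift t :=
    fun s t hst => lift_inj (add_left_cancel hst)
  have hmap := Measure.map_infinitePi_infinitePi_of_inj (P := fun _ : Zd d => μ) hinj
  rw [Measure.infinitePi_eq_pi (μ := fun _ : T d (2 * h + 1) => μ)] at hmap
  have hm : Measurable (fun (ω : Zd d → ℝ) (t : T d (2 * h + 1)) => ω (x + lift t)) := by
    fun_prop
  rw [← hmap, map_measureReal_apply hm hG.compl]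
  rfl

theorem law_neg (d : ℕ) (μ : Measure ℝ) [IsProbabilityMeasure μ] :
    (Measure.infinitePi fun _ : Zd d => μ).map (fun ω x => -ω x) =
      Measure.infinitePi fun _ : Zd d => μ.map fun t => -t :=
  Measure.infinitePi_map_pi (μ := fun _ : Zd d => μ)
    (f := fun _ (s : ℝ) => -s) (fun _ => measurable_neg)

theorem dens_neg (μ : Measure ℝ) (M : ℝ) (hM : μ ≤ ENNReal.ofReal M • (volume : Measure ℝ)) :
    μ.map (fun t => -t) ≤ ENNReal.ofReal M • (volume : Measure ℝ) := by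
  refine (Measure.map_mono hM measurable_neg).trans ?_
  rw [Measure.map_smul]
  have : (volume : Measure ℝ).map (fun t => -t) = volume := Measure.map_neg_eq_self volume
  rw [this]

theorem supp_neg (μ : Measure ℝ) (h : μ (Set.Icc (-1) 1)ᶜ = 0) :
    (μ.map fun t => -t) (Set.Icc (-1) 1)ᶜ = 0 := by
  rw [Measure.map_apply measurable_neg measurableSet_Icc.compl]
  have : (fun t : ℝ => -t) ⁻¹' (Set.Icc (-1 : ℝ) 1)ᶜ = (Set.Icc (-1) 1)ᶜ := by
    ext t
    simp only [Set.mem_preimage, Set.mem_compl_iff, Set.mem_Icc]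
    constructor
    · intro h1 h2
      exact h1 ⟨by linarith [h2.2], by linarith [h2.1]⟩
    · intro h1 h2
      exact h1 ⟨by linarith [h2.2], by linarith [h2.1]⟩
  rw [this, h]

/-- the bad set of a box size: covariance and density -/
theorem bad_set {d : ℕ} (μ : Measure ℝ) [IsProbabilityMeasure μ] (h : ℕ)
    (G1 G2 : Set (T d (2 * h + 1) → ℝ)) (hG1 : MeasurableSet G1) (hG2 : MeasurableSet G2)
    (ε : ℝ) (h1 : 1 - ε ≤ (Measure.pi fun _ : T d (2 * h + 1) => μ).real G1)
    (h2 : 1 - ε ≤ (Measure.pi fun _ : T d (2 * h + 1) => μ.map fun t => -t).real G2) :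
    ∃ Bad : (Zd d → ℝ) → Set (Zd d), (∀ x, MeasurableSet {ω | x ∈ Bad ω}) ∧
      (∀ ω a x, x ∈ Bad (fun y => ω (y + a)) ↔ x + a ∈ Bad ω) ∧
      (∀ x, (Measure.infinitePi fun _ : Zd d => μ).real {ω | x ∈ Bad ω} ≤ 2 * ε) ∧
      ∀ ω x, x ∉ Bad ω → VT h ω x ∈ G1 ∧ VT h (fun y => -ω y) x ∈ G2 := by
  have hmn : Measurable fun t : ℝ => -t := measurable_neg
  have hm : IsProbabilityMeasure (μ.map fun t : ℝ => -t) :=
    Measure.isProbabilityMeasure_map hmn.aemeasurable
  have hm1 : ∀ x : Zd d, Measurable (fun ω : Zd d → ℝ => VT h ω x) := by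
    intro x
    unfold VT
    fun_prop
  have hm2 : ∀ x : Zd d, Measurable (fun ω : Zd d → ℝ => VT h (fun y => -ω y) x) := by
    intro x
    unfold VT
    fun_prop
  refine ⟨fun ω => {x | VT h ω x ∉ G1 ∨ VT h (fun y => -ω y) x ∉ G2}, fun x => ?_,
    fun ω a x => ?_, fun x => ?_, fun ω x hx => ?_⟩
  · exact ((hm1 x) hG1.compl).union ((hm2 x) hG2.compl)
  · have e1 : VT h (fun y => ω (y + a)) x = VT h ω (x + a) := by
      funext t
      unfold VT
      show ω (x + lift t + a) = ω (x + a + lift t)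
      congr 1
      abel
    have e2 : VT h (fun y => -ω (y + a)) x = VT h (fun y => -ω y) (x + a) := by
      funext t
      unfold VT
      show -ω (x + lift t + a) = -ω (x + a + lift t)
      congr 2
      abel
    show VT h (fun y => ω (y + a)) x ∉ G1 ∨ VT h (fun y => -ω (y + a)) x ∉ G2 ↔
      VT h ω (x + a) ∉ G1 ∨ VT h (fun y => -ω y) (x + a) ∉ G2
    rw [e1, e2]
  · have p1 : (Measure.infinitePi fun _ : Zd d => μ).real {ω | VT h ω x ∉ G1} ≤ ε := by
      rw [bad_prob μ h G1 hG1 x, probReal_compl_eq_one_sub hG1]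
      linarith
    have p2 : (Measure.infinitePi fun _ : Zd d => μ).real
        {ω | VT h (fun y => -ω y) x ∉ G2} ≤ ε := by
      have h3 := bad_prob (μ.map fun t => -t) h G2 hG2 x
      rw [← law_neg d μ] at h3
      have hmn : Measurable (fun (ω : Zd d → ℝ) x => -ω x) := by fun_prop
      have hms : MeasurableSet {ω : Zd d → ℝ | VT h ω x ∉ G2} := (hm1 x) hG2.compl
      rw [map_measureReal_apply hmn hms] at h3
      have e : (fun (ω : Zd d → ℝ) x => -ω x) ⁻¹' {ω | VT h ω x ∉ G2} =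
          {ω | VT h (fun y => -ω y) x ∉ G2} := rfl
      rw [e] at h3
      rw [h3, probReal_compl_eq_one_sub hG2]
      linarith
    have e : {ω : Zd d → ℝ | x ∈ {x | VT h ω x ∉ G1 ∨ VT h (fun y => -ω y) x ∉ G2}} =
        {ω | VT h ω x ∉ G1} ∪ {ω | VT h (fun y => -ω y) x ∉ G2} := rfl
    rw [e]
    refine (measureReal_union_le _ _).trans ?_
    linarith
  · have hx' : ¬ (VT h ω x ∉ G1 ∨ VT h (fun y => -ω y) x ∉ G2) := hx
    push Not at hx'
    exact hx'

end Pool.Agent.Zk60.DL.Edge
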