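import Mathlib

/-! # Polynomials concentrated near `t = 1` (powers of Chebyshev polynomials of the second kind) -/

set_option autoImplicit false

open scoped BigOperators
open Polynomial

namespace Pool.Agent.Zk60.DL.Pol

/-- the pair `(T_n, U_{n-1})` -/
noncomputable def TU : ℕ → ℝ[X] × ℝ[X]
  | 0 => (1, 0)
  | n + 1 => (X * (TU n).1 - (1 - X ^ 2) * (TU n).2, X * (TU n).2 + (TU n).1)

theorem deg (n : ℕ) : (TU n).1.natDegree ≤ n ∧ (TU n).2.natDegree + 1 ≤ n + 1 ∧
    (1 ≤ n → (TU n).2.natDegree + 1 ≤ n) ∧ (n = 0 → (TU n).2 = 0) := by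
  induction n with
  | zero => simp [TU]
  | succ n ih =>
    obtain ⟨h1, h2, h3, h4⟩ := ih
    have hu : (TU (n + 1)).2.natDegree ≤ n := by
      show (X * (TU n).2 + (TU n).1).natDegree ≤ n
      refine (natDegree_add_le _ _).trans (max_le ?_ h1)
      rcases Nat.eq_zero_or_pos n with h0 | h0
      · rw [h4 h0, mul_zero]; simp
      · refine natDegree_mul_le.trans ?_
        rw [natDegree_X]
        have := h3 h0
        omega
    refine ⟨?_, by omega, by omega, by omega⟩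
    show (X * (TU n).1 - (1 - X ^ 2) * (TU n).2).natDegree ≤ n + 1
    refine (natDegree_sub_le _ _).trans (max_le ?_ ?_)
    · refine natDegree_mul_le.trans ?_
      rw [natDegree_X]; omega
    · rcases Nat.eq_zero_or_pos n with h0 | h0
      · rw [h4 h0, mul_zero]; simp
      · refine natDegree_mul_le.trans ?_
        have h5 : (1 - X ^ 2 : ℝ[X]).natDegree ≤ 2 := by
          refine (natDegree_sub_le _ _).trans (max_le (by simp) (by simp))
        have := h3 h0
        omega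

noncomputable def tn (n : ℕ) (t : ℝ) : ℝ := (TU n).1.eval t
noncomputable def un (n : ℕ) (t : ℝ) : ℝ := (TU n).2.eval t

theorem tn_zero (t : ℝ) : tn 0 t = 1 := by simp [tn, TU]
theorem un_zero (t : ℝ) : un 0 t = 0 := by simp [un, TU]
theorem tn_succ (n : ℕ) (t : ℝ) : tn (n + 1) t = t * tn n t - (1 - t ^ 2) * un n t := by
  simp [tn, un, TU]
theorem un_succ (n : ℕ) (t : ℝ) : un (n + 1) t = t * un n t + tn n t := by
  simp [tn, un, TU]

theorem pell (n : ℕ) (t : ℝ) : tn n t ^ 2 + (1 - t ^ 2) * un n t ^ 2 = 1 := by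
  induction n with
  | zero => rw [tn_zero, un_zero]; ring
  | succ n ih => rw [tn_succ, un_succ]; linear_combination ih

theorem tn_le (n : ℕ) (t : ℝ) (ht : |t| ≤ 1) : |tn n t| ≤ 1 := by
  have h := pell n t
  have h1 : t ^ 2 ≤ 1 := by rw [← sq_abs]; exact pow_le_one₀ (abs_nonneg _) ht
  have h2 : 0 ≤ (1 - t ^ 2) * un n t ^ 2 := mul_nonneg (by linarith) (sq_nonneg _)
  rw [← sq_le_one_iff_abs_le_one]
  linarith

theorem un_le (n : ℕ) (t : ℝ) (ht : |t| ≤ 1) : |un n t| ≤ n := by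
  induction n with
  | zero => rw [un_zero]; simp
  | succ n ih =>
    rw [un_succ]
    refine (abs_add_le _ _).trans ?_
    rw [abs_mul]
    have := tn_le n t ht
    have : |t| * |un n t| ≤ 1 * n := mul_le_mul ht ih (abs_nonneg _) zero_le_one
    push_cast
    linarith

theorem un_sq (n : ℕ) (t : ℝ) : (1 - t ^ 2) * un n t ^ 2 ≤ 1 := by
  have := pell n t
  nlinarith [sq_nonneg (tn n t)]

/-- lower bound just below `1` -/
theorem low (t : ℝ) (h0 : 0 ≤ t) (h1 : t ≤ 1) (n : ℕ) :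
    1 - (1 - t) * (n : ℝ) ^ 2 ≤ tn n t ∧ (n : ℝ) * (1 - (1 - t) * (n : ℝ) ^ 2) ≤ un n t := by
  have hab : |t| ≤ 1 := abs_le.2 ⟨by linarith, h1⟩
  induction n with
  | zero => rw [tn_zero, un_zero]; simp
  | succ n ih =>
    obtain ⟨ih1, ih2⟩ := ih
    have hn : (0 : ℝ) ≤ n := Nat.cast_nonneg n
    have a1 := (abs_le.1 (tn_le n t hab)).2
    have a2 := (abs_le.1 (un_le n t hab)).2
    rw [tn_succ, un_succ]
    push_cast
    have hd : 0 ≤ 1 - t := by linarith
    constructor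
    · -- `t T_n ≥ T_n - (1 - t)`, `(1 - t²) U ≤ 2 (1 - t) n`
      have b1 : (1 - t) * tn n t ≤ (1 - t) * 1 := mul_le_mul_of_nonneg_left a1 hd
      have b2 : (1 - t ^ 2) * un n t ≤ 2 * (1 - t) * n := by
        have c1 : (1 - t ^ 2) * un n t ≤ (1 - t ^ 2) * n :=
          mul_le_mul_of_nonneg_left a2 (by nlinarith)
        have c2 : (1 - t ^ 2) * (n : ℝ) ≤ 2 * (1 - t) * n :=
          mul_le_mul_of_nonneg_right (by nlinarith) hn
        linarith
      nlinarith
    · have b1 : (1 - t) * un n t ≤ (1 - t) * n := mul_le_mul_of_nonneg_left a2 hd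
      -- U ≥ U_n - (1-t) n + T_n
      have b3 : (n : ℝ) * (1 - (1 - t) * (n : ℝ) ^ 2) - (1 - t) * n +
          (1 - (1 - t) * (n : ℝ) ^ 2) ≤ t * un n t + tn n t := by nlinarith
      refine le_trans ?_ b3
      have b4 : 0 ≤ (1 - t) * n := mul_nonneg hd hn
      have b5 : 0 ≤ (1 - t) * (n : ℝ) ^ 2 := mul_nonneg hd (sq_nonneg _)
      have b6 : 0 ≤ (1 - t) * (n : ℝ) ^ 3 := mul_nonneg hd (by positivity)
      nlinarith

/-- above `1` -/
theorem high (t : ℝ) (h1 : 1 ≤ t) (n : ℕ) : 1 ≤ tn n t ∧ (n : ℝ) ≤ un n t := by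
  induction n with
  | zero => rw [tn_zero, un_zero]; simp
  | succ n ih =>
    obtain ⟨ih1, ih2⟩ := ih
    have hn : (0 : ℝ) ≤ n := Nat.cast_nonneg n
    rw [tn_succ, un_succ]
    push_cast
    have hu : 0 ≤ un n t := by linarith
    have h2 : 0 ≤ (t ^ 2 - 1) * un n t := mul_nonneg (by nlinarith) hu
    have h3 : 1 * tn n t ≤ t * tn n t := mul_le_mul_of_nonneg_right h1 (by linarith)
    have h4 : 1 * un n t ≤ t * un n t := mul_le_mul_of_nonneg_right h1 hu
    constructor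
    · linarith
    · linarith

/-- `(1 - x)^n ≥ 1/8` if `x n ≤ 1`, `x ≤ 1/2` -/
theorem one_sub_pow (x : ℝ) (n : ℕ) (h0 : 0 ≤ x) (h1 : x ≤ 1 / 2) (hn : x * n ≤ 1) :
    1 / 8 ≤ (1 - x) ^ n := by
  have h2 : Real.exp (-(2 * x)) ≤ 1 - x := by
    rw [Real.exp_neg, inv_le_comm₀ (Real.exp_pos _) (by linarith)]
    have h3 : (1 - x)⁻¹ ≤ 2 * x + 1 := by
      rw [inv_le_iff_one_le_mul₀ (by linarith)]
      nlinarith
    exact h3.trans (Real.add_one_le_exp _)
  have h4 : Real.exp (-(2 * x)) ^ n ≤ (1 - x) ^ n := pow_le_pow_left₀ (Real.exp_pos _).le h2 n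
  refine le_trans ?_ h4
  rw [← Real.exp_nat_mul]
  have h5 : Real.exp (-2) ≤ Real.exp (n * -(2 * x)) := Real.exp_le_exp.2 (by nlinarith)
  refine le_trans ?_ h5
  rw [Real.exp_neg, one_div]
  apply inv_anti₀ (Real.exp_pos _)
  have h6 := Real.exp_one_lt_d9
  have h7 : Real.exp 2 = Real.exp 1 * Real.exp 1 := by rw [← Real.exp_add]; norm_num
  rw [h7]
  have := Real.exp_pos 1
  nlinarith

/-- the dyadic bound: `B ≤ 1` and `B (N v)^s ≤ 1`, `N = 4^a`, `v = 1 - u` -/
theorem dyadic (s a : ℕ) (u B : ℝ) (hu0 : 0 ≤ u) (hu1 : u ≤ 1) (hB0 : 0 ≤ B) (hB1 : B ≤ 1)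
    (hBs : B * ((4 : ℝ) ^ a * (1 - u)) ^ s ≤ 1) :
    B ≤ 8 * ∑ k ∈ Finset.range (2 * a), (1 / 2 : ℝ) ^ (k * s) * u ^ (2 ^ (2 * a - 1 - k)) +
      (4 / 4 ^ a : ℝ) ^ s := by
  have hsum0 : ∀ k ∈ Finset.range (2 * a), 0 ≤ (1 / 2 : ℝ) ^ (k * s) * u ^ (2 ^ (2 * a - 1 - k)) :=
    fun k _ => by positivity
  have hN : (0 : ℝ) < 4 ^ a := by positivity
  have h42 : (4 : ℝ) ^ a = 2 ^ (2 * a) := by rw [pow_mul]; norm_num
  have hlast : 0 ≤ (4 / 4 ^ a : ℝ) ^ s := by positivity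
  -- the bound with one k
  have hterm : ∀ k, k + 2 ≤ 2 * a → (4 : ℝ) ^ a * (1 - u) ≤ 2 ^ (k + 1) →
      (1 / 8 : ℝ) ≤ u ^ (2 ^ (2 * a - 1 - k)) := by
    intro k hk h
    have e : (4 : ℝ) ^ a = 2 ^ (k + 1) * 2 ^ (2 * a - 1 - k) := by
      rw [h42, ← pow_add]; congr 1; omega
    have hv : (1 - u) * ((2 ^ (2 * a - 1 - k) : ℕ) : ℝ) ≤ 1 := by
      push_cast
      rw [e] at h
      have h2 : (0 : ℝ) < 2 ^ (k + 1) := by positivity
      have h3 : (2 : ℝ) ^ (k + 1) * ((1 - u) * 2 ^ (2 * a - 1 - k)) ≤ 2 ^ (k + 1) * 1 := by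
        linarith
      exact le_of_mul_le_mul_left h3 h2
    have hv2 : 1 - u ≤ 1 / 2 := by
      have h4 : (2 : ℝ) ≤ ((2 ^ (2 * a - 1 - k) : ℕ) : ℝ) := by
        have : 2 ^ 1 ≤ 2 ^ (2 * a - 1 - k) := Nat.pow_le_pow_right (by norm_num) (by omega)
        exact_mod_cast this
      nlinarith
    have := one_sub_pow (1 - u) (2 ^ (2 * a - 1 - k)) (by linarith) hv2 hv
    simpa using this
  by_cases hlarge : (4 : ℝ) ^ a * (1 - u) ≤ 4 ^ a / 4
  · -- find k
    by_cases hsmall : (4 : ℝ) ^ a * (1 - u) ≤ 2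
    · rcases Nat.eq_zero_or_pos a with h0 | h0
      · subst h0
        have : (1 : ℝ) ≤ (4 / 4 ^ 0) ^ s := one_le_pow₀ (by norm_num)
        simp only [mul_zero, Finset.range_zero, Finset.sum_empty, mul_zero, zero_add]
        linarith
      · have h1 := hterm 0 (by omega) (by simpa using hsmall)
        have h2 := Finset.single_le_sum hsum0 (Finset.mem_range.2 (show 0 < 2 * a by omega))
        simp only [zero_mul, pow_zero, one_mul] at h2
        linarith
    · push Not at hsmall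
      -- k with 2^k < N v ≤ 2^(k+1)
      have hex : ∃ k : ℕ, (4 : ℝ) ^ a * (1 - u) ≤ 2 ^ (k + 1) :=
        ⟨2 * a, by
          have : (2 : ℝ) ^ (2 * a) ≤ 2 ^ (2 * a + 1) :=
            pow_le_pow_right₀ (by norm_num) (by omega)
          rw [h42] at hlarge ⊢
          have : (0 : ℝ) < 2 ^ (2 * a) := by positivity
          linarith⟩
      classical
      set k := Nat.find hex with hk
      have hk1 := Nat.find_spec hex
      rw [← hk] at hk1
      have hkpos : 0 < k := by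
        rcases Nat.eq_zero_or_pos k with h | h
        · rw [h] at hk1; norm_num at hk1; linarith
        · exact h
      have hk2 : (2 : ℝ) ^ k < 4 ^ a * (1 - u) := by
        have := Nat.find_min hex (m := k - 1) (by omega)
        push Not at this
        rwa [show k - 1 + 1 = k by omega] at this
      have hka : k + 2 ≤ 2 * a := by
        have h1 : (2 : ℝ) ^ k < 2 ^ (2 * a) / 4 := by
          rw [← h42]; linarith
        have h2 : (2 : ℝ) ^ (k + 2) < 2 ^ (2 * a) := by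
          rw [pow_add]; linarith
        have := (pow_lt_pow_iff_right₀ (by norm_num : (1 : ℝ) < 2)).1 h2
        omega
      have h1 := hterm k hka hk1
      have h2 := Finset.single_le_sum hsum0 (Finset.mem_range.2 (show k < 2 * a by omega))
      have h3 : B ≤ (1 / 2 : ℝ) ^ (k * s) := by
        have h4 : B * ((2 : ℝ) ^ k) ^ s ≤ 1 := by
          refine le_trans (mul_le_mul_of_nonneg_left ?_ hB0) hBs
          exact pow_le_pow_left₀ (by positivity) hk2.le s
        have h5 : (1 / 2 : ℝ) ^ (k * s) = 1 / ((2 : ℝ) ^ k) ^ s := by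
          rw [← pow_mul, div_pow, one_pow]
        rw [h5, le_div_iff₀ (by positivity)]
        exact h4
      have h6 : (1 / 2 : ℝ) ^ (k * s) * (1 / 8) ≤
          (1 / 2 : ℝ) ^ (k * s) * u ^ (2 ^ (2 * a - 1 - k)) :=
        mul_le_mul_of_nonneg_left h1 (by positivity)
      linarith
  · push Not at hlarge
    have h1 : B ≤ (4 / 4 ^ a : ℝ) ^ s := by
      have h4 : B * ((4 : ℝ) ^ a / 4) ^ s ≤ 1 := by
        refine le_trans (mul_le_mul_of_nonneg_left ?_ hB0) hBs
        exact pow_le_pow_left₀ (by positivity) hlarge.le s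
      have h5 : (4 / 4 ^ a : ℝ) ^ s = 1 / ((4 : ℝ) ^ a / 4) ^ s := by
        rw [← one_div_pow, one_div_div]
      rw [h5, le_div_iff₀ (by positivity)]
      exact h4
    have := Finset.sum_nonneg hsum0
    linarith

/-- the polynomials -/
theorem poly (s : ℕ) (hs : 1 ≤ s) (a : ℕ) : ∃ p : ℝ[X], p.natDegree ≤ s * 2 ^ a ∧
    (∀ t : ℝ, 1 - 1 / (2 * s * 4 ^ a) ≤ t → 1 / 2 ≤ p.eval t) ∧
    ∀ t : ℝ, |t| ≤ 1 → p.eval t ^ 2 ≤
      8 * ∑ k ∈ Finset.range (2 * a), (1 / 2 : ℝ) ^ (k * s) * (t ^ (2 ^ (2 * a - 1 - k))) ^ 2 +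
        (4 / 4 ^ a : ℝ) ^ s := by
  set m : ℕ := 2 ^ a with hm
  have hmpos : 0 < m := by positivity
  have hm0 : (0 : ℝ) < m := by exact_mod_cast hmpos
  have hs0 : (1 : ℝ) ≤ s := by exact_mod_cast hs
  have hm2 : (m : ℝ) ^ 2 = 4 ^ a := by
    rw [hm]; push_cast; rw [← pow_mul, mul_comm, pow_mul]; norm_num
  refine ⟨(C (1 / (m : ℝ)) * (TU m).2) ^ s, ?_, ?_, ?_⟩
  · refine natDegree_pow_le.trans ?_
    refine Nat.mul_le_mul_left s ?_
    refine (natDegree_C_mul_le _ _).trans ?_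
    have := (deg m).2.2.1 hmpos
    omega
  · intro t ht
    rw [eval_pow, eval_mul, eval_C]
    change 1 / 2 ≤ (1 / (m : ℝ) * un m t) ^ s
    rcases le_or_gt t 1 with h1 | h1
    · have hpos : 1 / (2 * (s : ℝ) * 4 ^ a) ≤ 1 / 2 := by
        apply one_div_le_one_div_of_le (by norm_num)
        have : (1 : ℝ) ≤ 4 ^ a := one_le_pow₀ (by norm_num)
        nlinarith
      have h0 : 0 ≤ t := by linarith
      have h2 := (low t h0 h1 m).2
      rw [hm2] at h2
      have h3 : (1 - t) * 4 ^ a ≤ 1 / (2 * s) := by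
        have h4 : 1 - t ≤ 1 / (2 * s * 4 ^ a) := by linarith
        have h5 : (0 : ℝ) < 4 ^ a := by positivity
        calc (1 - t) * 4 ^ a ≤ 1 / (2 * s * 4 ^ a) * 4 ^ a :=
              mul_le_mul_of_nonneg_right h4 h5.le
          _ = 1 / (2 * s) := by field_simp
      have h6 : 1 - 1 / (2 * s) ≤ 1 / (m : ℝ) * un m t := by
        rw [one_div_mul_eq_div, le_div_iff₀ hm0]
        have h7 : (m : ℝ) * (1 - 1 / (2 * s)) ≤ m * (1 - (1 - t) * 4 ^ a) :=
          mul_le_mul_of_nonneg_left (by linarith) hm0.le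
        linarith
      have h8 : (0 : ℝ) ≤ 1 - 1 / (2 * s) := by
        have : 1 / (2 * (s : ℝ)) ≤ 1 / 2 := by
          apply one_div_le_one_div_of_le (by norm_num)
          linarith
        linarith
      refine le_trans ?_ (pow_le_pow_left₀ h8 h6 s)
      have h9 : (1 : ℝ) + s * (-(1 / (2 * s))) ≤ (1 + -(1 / (2 * s))) ^ s :=
        one_add_mul_le_pow (by linarith) s
      have h10 : (s : ℝ) * (-(1 / (2 * s))) = -(1 / 2) := by field_simp
      rw [h10] at h9
      have h11 : (1 : ℝ) + -(1 / (2 * s)) = 1 - 1 / (2 * s) := by ring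
      rw [h11] at h9
      linarith
    · have h2 := (high t h1.le m).2
      have h3 : (1 : ℝ) ≤ 1 / (m : ℝ) * un m t := by
        rw [one_div_mul_eq_div, le_div_iff₀ hm0]
        linarith
      have := one_le_pow₀ h3 (n := s)
      linarith
  · intro t ht
    rw [eval_pow, eval_mul, eval_C]
    change ((1 / (m : ℝ) * un m t) ^ s) ^ 2 ≤ _
    have ht2 : t ^ 2 ≤ 1 := by rw [← sq_abs]; exact pow_le_one₀ (abs_nonneg _) ht
    set w := 1 / (m : ℝ) * un m t with hw
    have hw1 : w ^ 2 ≤ 1 := by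
      rw [sq_le_one_iff_abs_le_one, hw, abs_mul, abs_of_pos (by positivity : 0 < 1 / (m : ℝ)),
        one_div_mul_eq_div, div_le_one hm0]
      exact un_le m t ht
    have hw2 : w ^ 2 * (4 ^ a * (1 - t ^ 2)) ≤ 1 := by
      have h1 := un_sq m t
      have e : w ^ 2 * (4 ^ a * (1 - t ^ 2)) = (1 - t ^ 2) * un m t ^ 2 := by
        rw [hw, ← hm2]
        field_simp
      rw [e]
      exact h1
    have h := dyadic s a (t ^ 2) ((w ^ s) ^ 2) (sq_nonneg _) ht2 (sq_nonneg _) (by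
      rw [← pow_mul, mul_comm, pow_mul]
      exact pow_le_one₀ (sq_nonneg _) hw1) (by
      have e : (w ^ s) ^ 2 * (4 ^ a * (1 - t ^ 2)) ^ s = (w ^ 2 * (4 ^ a * (1 - t ^ 2))) ^ s := by
        rw [mul_pow (w ^ 2), ← pow_mul w, ← pow_mul w, mul_comm 2 s]
      rw [e]
      exact pow_le_one₀ (mul_nonneg (sq_nonneg _) (mul_nonneg (by positivity) (by linarith))) hw2)
    refine h.trans (le_of_eq ?_)
    congr 2
    refine Finset.sum_congr rfl fun k _ => ?_
    rw [← pow_mul, ← pow_mul, mul_comm 2]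

end Pool.Agent.Zk60.DL.Pol
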