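import Mathlib

/-! # Polynomials of symmetric contractions -/

set_option autoImplicit false

open scoped BigOperators
open Polynomial

namespace Pool.Agent.Zk60.DL.Spec

theorem aeval_basis {E : Type*} [NormedAddCommGroup E] [InnerProductSpace ℝ E]
    [FiniteDimensional ℝ E] (T : E →ₗ[ℝ] E) (hT : T.IsSymmetric) {n : ℕ}
    (hn : Module.finrank ℝ E = n) (p : ℝ[X]) (v : E) :
    ‖aeval T p v‖ ^ 2 = ∑ i, (p.eval (hT.eigenvalues hn i)) ^ 2 *
      (inner ℝ (hT.eigenvectorBasis hn i) v) ^ 2 := by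
  set b := hT.eigenvectorBasis hn with hb
  have h1 : ∀ i, aeval T p (b i) = p.eval (hT.eigenvalues hn i) • b i := by
    intro i
    have h := hT.apply_eigenvectorBasis hn i
    rw [← hb] at h
    have h2 : Module.End.HasEigenvector T (hT.eigenvalues hn i) (b i) := by
      refine ⟨?_, ?_⟩
      · rw [Module.End.mem_eigenspace_iff]
        simpa using h
      · exact b.orthonormal.ne_zero i
    exact Module.End.aeval_apply_of_hasEigenvector h2
  have h2 : aeval T p v = ∑ i, (p.eval (hT.eigenvalues hn i) * inner ℝ (b i) v) • b i := by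
    conv_lhs => rw [← b.sum_repr' v]
    rw [map_sum]
    refine Finset.sum_congr rfl fun i _ => ?_
    rw [map_smul, h1, smul_smul, mul_comm]
  have h3 : ∀ i, inner ℝ (b i) (aeval T p v) = p.eval (hT.eigenvalues hn i) * inner ℝ (b i) v := by
    intro i
    rw [h2, inner_sum]
    rw [Finset.sum_eq_single i]
    · rw [inner_smul_right, b.inner_eq_one, mul_one]
    · intro j _ hj
      rw [inner_smul_right, b.inner_eq_zero hj.symm, mul_zero]
    · intro h; exact absurd (Finset.mem_univ _) h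
  rw [← b.sum_sq_norm_inner_right (aeval T p v)]
  refine Finset.sum_congr rfl fun i _ => ?_
  rw [h3, Real.norm_eq_abs, sq_abs, mul_pow]

theorem eig_le {E : Type*} [NormedAddCommGroup E] [InnerProductSpace ℝ E]
    [FiniteDimensional ℝ E] (T : E →ₗ[ℝ] E) (hT : T.IsSymmetric) (hc : ∀ v, ‖T v‖ ≤ ‖v‖) {n : ℕ}
    (hn : Module.finrank ℝ E = n) (i : Fin n) : |hT.eigenvalues hn i| ≤ 1 := by
  have h := hc (hT.eigenvectorBasis hn i)
  rw [hT.apply_eigenvectorBasis hn i] at h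
  simpa [norm_smul] using h

/-- a polynomial inequality on `[-1,1]` gives an inequality of norms -/
theorem compare {E : Type*} [NormedAddCommGroup E] [InnerProductSpace ℝ E]
    [FiniteDimensional ℝ E] (T : E →ₗ[ℝ] E) (hT : T.IsSymmetric) (hc : ∀ v, ‖T v‖ ≤ ‖v‖)
    (p : ℝ[X]) {ι : Type*} (J : Finset ι) (c : ι → ℝ) (k : ι → ℕ) (c' : ℝ)
    (h : ∀ t : ℝ, |t| ≤ 1 → p.eval t ^ 2 ≤ ∑ j ∈ J, c j * (t ^ k j) ^ 2 + c') (v : E) :
    ‖aeval T p v‖ ^ 2 ≤ ∑ j ∈ J, c j * ‖(T ^ k j) v‖ ^ 2 + c' * ‖v‖ ^ 2 := by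
  have e1 := aeval_basis T hT rfl p v
  have e2 : ∀ j, ‖(T ^ k j) v‖ ^ 2 = ∑ i, ((hT.eigenvalues rfl i) ^ k j) ^ 2 *
      (inner ℝ (hT.eigenvectorBasis rfl i) v) ^ 2 := by
    intro j
    have := aeval_basis T hT rfl (X ^ k j) v
    simpa using this
  have e3 : ‖v‖ ^ 2 = ∑ i, (inner ℝ (hT.eigenvectorBasis rfl i) v) ^ 2 := by
    have := aeval_basis T hT rfl (1 : ℝ[X]) v
    simpa using this
  rw [e1, e3]
  simp only [e2]
  calc _ ≤ ∑ i, (∑ j ∈ J, c j * ((hT.eigenvalues rfl i) ^ k j) ^ 2 + c') *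
        (inner ℝ (hT.eigenvectorBasis rfl i) v) ^ 2 :=
        Finset.sum_le_sum fun i _ =>
          mul_le_mul_of_nonneg_right (h _ (eig_le T hT hc rfl i)) (sq_nonneg _)
    _ = _ := by
        simp only [add_mul, Finset.sum_add_distrib, Finset.sum_mul, Finset.mul_sum]
        congr 1
        rw [Finset.sum_comm]
        refine Finset.sum_congr rfl fun j _ => Finset.sum_congr rfl fun i _ => ?_
        ring

/-- version for real functions on a finite set -/
theorem fin {ι : Type*} [Fintype ι] (T : (ι → ℝ) →ₗ[ℝ] (ι → ℝ))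
    (hT : ∀ f g, ∑ x, T f x * g x = ∑ x, f x * T g x)
    (hc : ∀ f, ∑ x, T f x ^ 2 ≤ ∑ x, f x ^ 2) (p : ℝ[X]) {J' : Type*} (J : Finset J')
    (c : J' → ℝ) (k : J' → ℕ) (c' : ℝ)
    (h : ∀ t : ℝ, |t| ≤ 1 → p.eval t ^ 2 ≤ ∑ j ∈ J, c j * (t ^ k j) ^ 2 + c') (f : ι → ℝ) :
    ∑ x, aeval T p f x ^ 2 ≤ ∑ j ∈ J, c j * ∑ x, (T ^ k j) f x ^ 2 + c' * ∑ x, f x ^ 2 := by
  classical
  let e : EuclideanSpace ℝ ι ≃ₗ[ℝ] (ι → ℝ) := WithLp.linearEquiv 2 ℝ (ι → ℝ)
  have he : ∀ v : EuclideanSpace ℝ ι, ‖v‖ ^ 2 = ∑ x, e v x ^ 2 := by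
    intro v
    rw [EuclideanSpace.norm_sq_eq]
    exact Finset.sum_congr rfl fun x _ => by rw [Real.norm_eq_abs, sq_abs]; rfl
  let S : EuclideanSpace ℝ ι →ₗ[ℝ] EuclideanSpace ℝ ι :=
    e.symm.toLinearMap ∘ₗ T ∘ₗ e.toLinearMap
  have hSe : ∀ v, e (S v) = T (e v) := fun v => by simp [S]
  have hS : S.IsSymmetric := by
    intro v w
    rw [PiLp.inner_apply, PiLp.inner_apply]
    have h1 := hT (e v) (e w)
    have a1 : ∀ (a b : EuclideanSpace ℝ ι) (x : ι), inner ℝ (a x) (b x) = e a x * e b x := by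
      intro a b x
      have : inner ℝ (a x) (b x) = b x * a x := by simp
      rw [this, mul_comm]
      rfl
    simp only [a1, hSe]
    exact h1
  have hSc : ∀ v, ‖S v‖ ≤ ‖v‖ := by
    intro v
    have h1 := hc (e v)
    rw [← hSe, ← he, ← he] at h1
    exact (sq_le_sq₀ (norm_nonneg _) (norm_nonneg _)).1 h1
  have hpow : ∀ (n : ℕ) v, e ((S ^ n) v) = (T ^ n) (e v) := by
    intro n v
    induction n with
    | zero => simp
    | succ n ih => rw [pow_succ', Module.End.mul_apply, hSe, ih, pow_succ', Module.End.mul_apply]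
  have hae : ∀ (q : ℝ[X]) v, e (aeval S q v) = aeval T q (e v) := by
    intro q v
    induction q using Polynomial.induction_on' with
    | add a b ha hb => simp [ha, hb]
    | monomial n a =>
      simp only [aeval_monomial, Module.End.mul_apply, Module.algebraMap_end_apply, map_smul, hpow]
  have h2 := compare S hS hSc p J c k c' h (e.symm f)
  rw [he, he, hae] at h2
  simp only [he, hpow] at h2
  simpa using h2

end Pool.Agent.Zk60.DL.Spec
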