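import Pool.Agent.H541R3.AND.Heat
import Pool.Agent.Zk60.DL.Pol
import Pool.Agent.Zk60.DL.Spec

/-! # Concentrated polynomials of the Hamiltonian on the torus -/

set_option autoImplicit false

open scoped BigOperators
open Polynomial

namespace Pool.Agent.Zk60.DL.Tor

open Pool.Agent.H4R2.AE Pool.Agent.H541R3.AND.Heat Pool.Agent.H541R3.AND.Nash

/-- the heat kernel bound on tori with a flat ground state -/
def Decay (d : ℕ) (b C : ℝ) : Prop :=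
  ∀ (L : ℕ) [NeZero L] (lam E0 : ℝ) (V ψ : T d L → ℝ), (∀ x, 1 ≤ ψ x) → (∀ x, ψ x ≤ 2) →
      (∀ x, Hop lam V ψ x = E0 * ψ x) → ∀ (z : T d L) (n : ℕ),
        (∑ x, ((QT (E0 - 1 / (L : ℝ) ^ 2) b lam V)^[n] (Pi.single z 1) x) ^ 2) *
          (n : ℝ) ^ ((d : ℝ) / 2) ≤ C

/-- `1 - (H - c₀)/b` as a linear map -/
noncomputable def QTl {d L : ℕ} (c0 b lam : ℝ) (V : T d L → ℝ) :
    (T d L → ℝ) →ₗ[ℝ] (T d L → ℝ) where
  toFun := QT c0 b lam V
  map_add' f g := by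
    funext x
    simp only [QT, Hop, Pi.add_apply]
    have : ∑ i : Fin d, (2 * (f x + g x) - (f (x + Pi.single i 1) + g (x + Pi.single i 1)) -
        (f (x - Pi.single i 1) + g (x - Pi.single i 1))) =
        ∑ i : Fin d, (2 * f x - f (x + Pi.single i 1) - f (x - Pi.single i 1)) +
        ∑ i : Fin d, (2 * g x - g (x + Pi.single i 1) - g (x - Pi.single i 1)) := by
      rw [← Finset.sum_add_distrib]
      exact Finset.sum_congr rfl fun i _ => by ring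
    rw [this]
    ring
  map_smul' a f := by
    funext x
    simp only [QT, Hop, Pi.smul_apply, smul_eq_mul, RingHom.id_apply]
    have : ∑ i : Fin d, (2 * (a * f x) - a * f (x + Pi.single i 1) -
        a * f (x - Pi.single i 1)) =
        a * ∑ i : Fin d, (2 * f x - f (x + Pi.single i 1) - f (x - Pi.single i 1)) := by
      rw [Finset.mul_sum]
      exact Finset.sum_congr rfl fun i _ => by ring
    rw [this]
    ring

theorem QTl_pow {d L : ℕ} (c0 b lam : ℝ) (V : T d L → ℝ) (n : ℕ) (f : T d L → ℝ) :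
    (QTl c0 b lam V ^ n) f = (QT c0 b lam V)^[n] f := by
  rw [Module.End.pow_apply]
  rfl

theorem symm {d L : ℕ} [NeZero L] (c0 b lam : ℝ) (V f g : T d L → ℝ) :
    ∑ x, QTl c0 b lam V f x * g x = ∑ x, f x * QTl c0 b lam V g x := by
  have h := Core.hop_symm lam V f g
  have e1 : ∀ x, QTl c0 b lam V f x * g x = (1 + c0 / b) * (f x * g x) -
      1 / b * (g x * Hop lam V f x) := by
    intro x
    show QT c0 b lam V f x * g x = _
    unfold QT; ring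
  have e2 : ∀ x, f x * QTl c0 b lam V g x = (1 + c0 / b) * (f x * g x) -
      1 / b * (f x * Hop lam V g x) := by
    intro x
    show f x * QT c0 b lam V g x = _
    unfold QT; ring
  rw [Finset.sum_congr rfl fun x _ => e1 x, Finset.sum_congr rfl fun x _ => e2 x,
    Finset.sum_sub_distrib, Finset.sum_sub_distrib, ← Finset.mul_sum (a := 1 / b),
    ← Finset.mul_sum (a := 1 / b)]
  congr 2

theorem contr {d L : ℕ} [NeZero L] (b lam E0 : ℝ) (hb : 2 * (4 * (d : ℝ) + 1) ≤ b)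
    (V ψ : T d L → ℝ) (h1 : ∀ x, 1 ≤ ψ x) (h2 : ∀ x, ψ x ≤ 2)
    (he : ∀ x, Hop lam V ψ x = E0 * ψ x) (f : T d L → ℝ) :
    ∑ x, QTl (E0 - 1 / (L : ℝ) ^ 2) b lam V f x ^ 2 ≤ ∑ x, f x ^ 2 := by
  have hb0 : 0 < b := by
    have : (0 : ℝ) ≤ d := Nat.cast_nonneg d
    linarith
  set g : T d L → ℝ := fun x => f x / ψ x with hg
  have hfg : f = fun x => ψ x * g x := by
    funext x
    have : ψ x ≠ 0 := by have := h1 x; positivity
    rw [hg]; field_simp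
  have e1 : ∀ x, QTl (E0 - 1 / (L : ℝ) ^ 2) b lam V f x = ψ x * Pg b ψ g x := by
    intro x
    show QT (E0 - 1 / (L : ℝ) ^ 2) b lam V f x = _
    conv_lhs => rw [hfg]
    rw [conj b lam E0 V ψ g h1 he]
  have h3 := stepl2 b hb ψ g h1 h2
  have h4 := Qf_nonneg ψ g h1
  have h5 : 0 ≤ 1 / b * Qf ψ g := by positivity
  calc ∑ x, QTl (E0 - 1 / (L : ℝ) ^ 2) b lam V f x ^ 2 = ∑ x, ψ x ^ 2 * Pg b ψ g x ^ 2 :=
        Finset.sum_congr rfl fun x _ => by rw [e1, mul_pow]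
    _ ≤ ∑ x, ψ x ^ 2 * g x ^ 2 := by linarith
    _ = ∑ x, f x ^ 2 := Finset.sum_congr rfl fun x _ => by rw [hfg]; ring

/-- polynomials -/
theorem polyT (d : ℕ) (hd : 2 ≤ d) (b C : ℝ) (hC : 0 < C) (hb : 2 * (4 * (d : ℝ) + 1) ≤ b)
    (hD : Decay d b C) :
    ∃ C' : ℝ, 0 < C' ∧ ∀ a : ℕ, ∃ p : ℝ[X], p.natDegree ≤ d * 2 ^ a ∧
      (∀ t : ℝ, 1 - 1 / (2 * d * 4 ^ a) ≤ t → 1 / 2 ≤ p.eval t) ∧
      ∀ (L : ℕ) [NeZero L] (lam E0 : ℝ) (V ψ : T d L → ℝ), (∀ x, 1 ≤ ψ x) → (∀ x, ψ x ≤ 2) →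
        (∀ x, Hop lam V ψ x = E0 * ψ x) → ∀ z : T d L,
          ∑ x, (aeval (QTl (E0 - 1 / (L : ℝ) ^ 2) b lam V) p (Pi.single z 1) x) ^ 2 ≤
            C' * (1 / 2 ^ (a * d)) := by
  refine ⟨16 * C * 2 ^ d + 4 ^ d, by positivity, fun a => ?_⟩
  obtain ⟨p, hp1, hp2, hp3⟩ := Pol.poly d (by omega) a
  refine ⟨p, hp1, hp2, ?_⟩
  intro L _ lam E0 V ψ h1 h2 he z
  have hfin := Spec.fin (QTl (E0 - 1 / (L : ℝ) ^ 2) b lam V)
    (symm _ b lam V) (contr b lam E0 hb V ψ h1 h2 he) p (Finset.range (2 * a))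
    (fun k => 8 * (1 / 2 : ℝ) ^ (k * d)) (fun k => 2 ^ (2 * a - 1 - k)) ((4 / 4 ^ a : ℝ) ^ d)
    (fun t ht => by
      refine (hp3 t ht).trans (le_of_eq ?_)
      rw [Finset.mul_sum]
      congr 1
      exact Finset.sum_congr rfl fun k _ => by ring) (Pi.single z 1)
  refine hfin.trans ?_
  have hδ : ∑ x, (Pi.single z 1 : T d L → ℝ) x ^ 2 = 1 := by
    rw [Finset.sum_eq_single z]
    · rw [Pi.single_eq_same]; norm_num
    · intro y _ hy
      rw [Pi.single_eq_of_ne hy]; norm_num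
    · intro hn; exact absurd (Finset.mem_univ _) hn
  have hterm : ∀ k ∈ Finset.range (2 * a), 8 * (1 / 2 : ℝ) ^ (k * d) *
      ∑ x, ((QTl (E0 - 1 / (L : ℝ) ^ 2) b lam V) ^ (2 ^ (2 * a - 1 - k)))
        (Pi.single z 1) x ^ 2 ≤ 8 * C * 2 ^ d * (1 / 2 ^ (a * d)) * (1 / 2 : ℝ) ^ k := by
    intro k hk
    rw [Finset.mem_range] at hk
    have h3 := hD L lam E0 V ψ h1 h2 he z (2 ^ (2 * a - 1 - k))
    rw [← QTl_pow] at h3
    set S := ∑ x, ((QTl (E0 - 1 / (L : ℝ) ^ 2) b lam V) ^ (2 ^ (2 * a - 1 - k)))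
        (Pi.single z 1) x ^ 2 with hS
    have hS0 : 0 ≤ S := Finset.sum_nonneg fun x _ => sq_nonneg _
    -- `n^{d/2} = 2^{(2a-1-k) d/2} ≥ 2^{ad} 2^{-(k+1) d/2}`
    have e1 : (((2 ^ (2 * a - 1 - k) : ℕ) : ℝ)) ^ ((d : ℝ) / 2) =
        (2 : ℝ) ^ (((2 * a - 1 - k : ℕ) : ℝ) * ((d : ℝ) / 2)) := by
      push_cast
      rw [← Real.rpow_natCast, ← Real.rpow_mul (by norm_num)]
    have e2 : (((2 * a - 1 - k : ℕ) : ℝ)) = 2 * a - (k + 1) := by
      rw [show 2 * a - 1 - k = 2 * a - (k + 1) by omega, Nat.cast_sub (by omega)]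
      push_cast; ring
    rw [e1, e2] at h3
    have hd2 : (2 : ℝ) ≤ d := by exact_mod_cast hd
    have hk0 : (0 : ℝ) ≤ k := Nat.cast_nonneg k
    -- compare
    have h4 : (2 : ℝ) ^ (a * d) * (1 / 2 : ℝ) ^ (k * d) * 2 ^ k ≤
        2 ^ d * (2 : ℝ) ^ ((2 * (a : ℝ) - (k + 1)) * ((d : ℝ) / 2)) := by
      have f1 : (2 : ℝ) ^ (a * d) * (1 / 2 : ℝ) ^ (k * d) * 2 ^ k =
          (2 : ℝ) ^ ((a : ℝ) * d - k * d + k) := by
        rw [Real.rpow_add (by norm_num), Real.rpow_sub (by norm_num), ← Real.rpow_natCast 2 k,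
          one_div, inv_pow, ← Real.rpow_natCast 2 (k * d), ← Real.rpow_natCast 2 (a * d)]
        push_cast
        rw [div_eq_mul_inv]
      have f2 : (2 : ℝ) ^ d * (2 : ℝ) ^ ((2 * (a : ℝ) - (k + 1)) * ((d : ℝ) / 2)) =
          (2 : ℝ) ^ ((d : ℝ) + (2 * (a : ℝ) - (k + 1)) * ((d : ℝ) / 2)) := by
        rw [Real.rpow_add (by norm_num), Real.rpow_natCast]
      rw [f1, f2]
      apply Real.rpow_le_rpow_of_exponent_le (by norm_num)
      nlinarith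
    have hpos1 : (0 : ℝ) < 2 ^ (a * d) := by positivity
    have hpos2 : (0 : ℝ) < 2 ^ k := by positivity
    have h5 : (8 * (1 / 2 : ℝ) ^ (k * d) * S) * (2 ^ (a * d) * 2 ^ k) ≤ 8 * C * 2 ^ d := by
      calc (8 * (1 / 2 : ℝ) ^ (k * d) * S) * (2 ^ (a * d) * 2 ^ k) =
            8 * S * ((2 : ℝ) ^ (a * d) * (1 / 2 : ℝ) ^ (k * d) * 2 ^ k) := by ring
        _ ≤ 8 * S * (2 ^ d * (2 : ℝ) ^ ((2 * (a : ℝ) - (k + 1)) * ((d : ℝ) / 2))) :=
            mul_le_mul_of_nonneg_left h4 (by positivity)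
        _ = 8 * 2 ^ d * (S * (2 : ℝ) ^ ((2 * (a : ℝ) - (k + 1)) * ((d : ℝ) / 2))) := by ring
        _ ≤ 8 * 2 ^ d * C := mul_le_mul_of_nonneg_left h3 (by positivity)
        _ = 8 * C * 2 ^ d := by ring
    have e3 : 8 * C * 2 ^ d * (1 / 2 ^ (a * d)) * (1 / 2 : ℝ) ^ k =
        8 * C * 2 ^ d / (2 ^ (a * d) * 2 ^ k) := by
      rw [one_div_pow]
      field_simp
    rw [e3, le_div_iff₀ (by positivity)]
    exact h5
  have hsum := Finset.sum_le_sum hterm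
  rw [← Finset.mul_sum] at hsum
  have hgeo : ∑ k ∈ Finset.range (2 * a), (1 / 2 : ℝ) ^ k ≤ 2 := by
    have h := geom_sum_eq (show (1 / 2 : ℝ) ≠ 1 by norm_num) (2 * a)
    rw [h, div_le_iff_of_neg (by norm_num)]
    have : (0 : ℝ) < (1 / 2) ^ (2 * a) := by positivity
    linarith
  have h6 : 8 * C * 2 ^ d * (1 / 2 ^ (a * d)) * ∑ k ∈ Finset.range (2 * a), (1 / 2 : ℝ) ^ k ≤
      8 * C * 2 ^ d * (1 / 2 ^ (a * d)) * 2 := mul_le_mul_of_nonneg_left hgeo (by positivity)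
  have h7 : (4 / 4 ^ a : ℝ) ^ d * 1 ≤ 4 ^ d * (1 / 2 ^ (a * d)) := by
    rw [mul_one, div_pow, ← pow_mul, div_eq_mul_one_div]
    apply mul_le_mul_of_nonneg_left _ (by positivity)
    apply one_div_le_one_div_of_le (by positivity)
    exact pow_le_pow_left₀ (by norm_num) (by norm_num) _
  rw [hδ]
  calc _ ≤ 8 * C * 2 ^ d * (1 / 2 ^ (a * d)) * 2 + 4 ^ d * (1 / 2 ^ (a * d)) :=
        add_le_add (hsum.trans h6) h7
    _ = _ := by ring

end Pool.Agent.Zk60.DL.Tor
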