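import Pool.Agent.H541R3.AND.Deloc
import Pool.Agent.Zk60.DL.Tor

/-! # Low energy states are spread out around good sites: diffusive scale -/

set_option autoImplicit false

open scoped BigOperators
open MeasureTheory Polynomial

namespace Pool.Agent.Zk60.DL.Main

open Pool.Agent.H4R2.AE Pool.Agent.H541R3.AND.Heat Pool.Agent.H541R3.AND.Trans
open Pool.Agent.H541R3.AND.Deloc
open Pool.Agent.Zk60.DL.Tor (QTl QTl_pow)

/-- the combination `∑ a_j Q^j δ` on `ℤ^d` -/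
noncomputable def FZ {d : ℕ} (c0 b lam : ℝ) (V : Zd d → ℝ) (x0 : Zd d) (p : ℝ[X]) (x : Zd d) : ℝ :=
  ∑ j ∈ Finset.range (p.natDegree + 1), p.coeff j * (QZ c0 b lam V)^[j] (Pi.single x0 1) x

/-- `1 - (H - c₀)/b` as a linear map -/
noncomputable def QZl {d : ℕ} (c0 b lam : ℝ) (V : Zd d → ℝ) :
    (Zd d → ℝ) →ₗ[ℝ] (Zd d → ℝ) where
  toFun := QZ c0 b lam V
  map_add' f g := by
    funext x
    simp only [QZ, HZ, Pi.add_apply]
    have : ∑ i : Fin d, (2 * (f x + g x) - (f (x + Pi.single i 1) + g (x + Pi.single i 1)) -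
        (f (x - Pi.single i 1) + g (x - Pi.single i 1))) =
        ∑ i : Fin d, (2 * f x - f (x + Pi.single i 1) - f (x - Pi.single i 1)) +
        ∑ i : Fin d, (2 * g x - g (x + Pi.single i 1) - g (x - Pi.single i 1)) := by
      rw [← Finset.sum_add_distrib]
      exact Finset.sum_congr rfl fun i _ => by ring
    rw [this]
    ring
  map_smul' a f := by
    funext x
    simp only [QZ, HZ, Pi.smul_apply, smul_eq_mul, RingHom.id_apply]
    have : ∑ i : Fin d, (2 * (a * f x) - a * f (x + Pi.single i 1) -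
        a * f (x - Pi.single i 1)) =
        a * ∑ i : Fin d, (2 * f x - f (x + Pi.single i 1) - f (x - Pi.single i 1)) := by
      rw [Finset.mul_sum]
      exact Finset.sum_congr rfl fun i _ => by ring
    rw [this]
    ring

theorem QZl_pow {d : ℕ} (c0 b lam : ℝ) (V : Zd d → ℝ) (n : ℕ) (f : Zd d → ℝ) :
    (QZl c0 b lam V ^ n) f = (QZ c0 b lam V)^[n] f := by
  rw [Module.End.pow_apply]
  rfl

theorem FZ_eq {d : ℕ} (c0 b lam : ℝ) (V : Zd d → ℝ) (x0 : Zd d) (p : ℝ[X]) :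
    FZ c0 b lam V x0 p = ∑ j ∈ Finset.range (p.natDegree + 1),
      p.coeff j • (QZl c0 b lam V ^ j) (Pi.single x0 1) := by
  funext x
  rw [Finset.sum_apply]
  unfold FZ
  refine Finset.sum_congr rfl fun j _ => ?_
  rw [Pi.smul_apply, smul_eq_mul, QZl_pow]

theorem aevalT {d L : ℕ} (c0 b lam : ℝ) (V f : T d L → ℝ) (p : ℝ[X]) (x : T d L) :
    aeval (QTl c0 b lam V) p f x =
      ∑ j ∈ Finset.range (p.natDegree + 1), p.coeff j * (QT c0 b lam V)^[j] f x := by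
  rw [aeval_eq_sum_range, LinearMap.sum_apply, Finset.sum_apply]
  refine Finset.sum_congr rfl fun j _ => ?_
  rw [LinearMap.smul_apply, Pi.smul_apply, smul_eq_mul, QTl_pow]

theorem FZ_props {d : ℕ} (h : ℕ) (c0 b lam : ℝ) (V : Zd d → ℝ) (x0 : Zd d) (p : ℝ[X])
    (hp : p.natDegree ≤ h) :
    (∀ x, x ∉ box h x0 → FZ c0 b lam V x0 p x = 0) ∧
    ∑ x ∈ box h x0, FZ c0 b lam V x0 p x ^ 2 =
      ∑ t : T d (2 * h + 1), (aeval (QTl c0 b lam (VT h V x0)) p (Pi.single 0 1) t) ^ 2 := by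
  refine ⟨fun x hx => ?_, ?_⟩
  · unfold FZ
    refine Finset.sum_eq_zero fun j hj => ?_
    rw [Finset.mem_range] at hj
    rw [(iter_props h c0 b lam V x0 j (by omega)).1 x hx, mul_zero]
  · rw [sum_box]
    refine Finset.sum_congr rfl fun t _ => ?_
    rw [aevalT]
    unfold FZ
    congr 1
    refine Finset.sum_congr rfl fun j hj => ?_
    rw [Finset.mem_range] at hj
    rw [(matching h c0 b lam V x0 j (by omega)).1 (lift t) (lift_abs t), pr_lift]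

theorem tsum_FZ {d : ℕ} (c0 b lam : ℝ) (V φ : Zd d → ℝ) (x0 : Zd d) (p : ℝ[X]) :
    ∑' x, FZ c0 b lam V x0 p x * φ x =
      ∑ j ∈ Finset.range (p.natDegree + 1), p.coeff j * (QZ c0 b lam V)^[j] φ x0 := by
  have h1 : ∀ x, FZ c0 b lam V x0 p x * φ x = ∑ j ∈ Finset.range (p.natDegree + 1),
      p.coeff j * ((QZ c0 b lam V)^[j] (Pi.single x0 1) x * φ x) := by
    intro x
    unfold FZ
    rw [Finset.sum_mul]
    exact Finset.sum_congr rfl fun j _ => by ring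
  rw [tsum_congr h1, Summable.tsum_finsetSum fun j _ =>
    (((FS.single x0).iter c0 b lam V j).summable φ).mul_left _]
  refine Finset.sum_congr rfl fun j _ => ?_
  rw [tsum_mul_left, symm_iter c0 b lam V φ j _ (FS.single x0), pair_single]

theorem eigen_FZ {d : ℕ} (c0 b lam E : ℝ) (V φ : Zd d → ℝ) (x0 : Zd d) (p : ℝ[X])
    (hE : ∀ x, HZ lam V φ x = E * φ x) :
    ∑' x, FZ c0 b lam V x0 p x * φ x = p.eval (q c0 b E) * φ x0 := by
  rw [tsum_FZ, eval_eq_sum_range, Finset.sum_mul]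
  refine Finset.sum_congr rfl fun j _ => ?_
  rw [qz_eig c0 b lam E V φ hE j]
  ring

theorem spec_FZ {d : ℕ} (h : ℕ) (c0 b lam : ℝ) (V : Zd d → ℝ) (x0 : Zd d) (p : ℝ[X])
    (hp : p.natDegree ≤ h) (m : Measure ℝ)
    (hm : ∀ j : ℕ, Integrable (fun E : ℝ => E ^ j) m ∧
      ∫ E, E ^ j ∂m = (HZ lam V)^[j] (Pi.single x0 1) x0) :
    Integrable (fun E => p.eval (q c0 b E) ^ 2) m ∧
      ∫ E, p.eval (q c0 b E) ^ 2 ∂m = ∑ x ∈ box h x0, FZ c0 b lam V x0 p x ^ 2 := by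
  have hmom : ∀ n : ℕ, Integrable (fun E : ℝ => q c0 b E ^ n) m ∧
      ∫ E, q c0 b E ^ n ∂m = (QZ c0 b lam V)^[n] (Pi.single x0 1) x0 := by
    intro n
    have := moments c0 b lam V x0 m hm n 0
    simpa using this
  have e : (fun E => p.eval (q c0 b E) ^ 2) = fun E =>
      ∑ i ∈ Finset.range (p.natDegree + 1), ∑ j ∈ Finset.range (p.natDegree + 1),
        p.coeff i * p.coeff j * q c0 b E ^ (j + i) := by
    funext E
    rw [eval_eq_sum_range, sq, Finset.sum_mul_sum]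
    exact Finset.sum_congr rfl fun i _ => Finset.sum_congr rfl fun j _ => by ring
  have hi : ∀ i j : ℕ, Integrable (fun E => p.coeff i * p.coeff j * q c0 b E ^ (j + i)) m :=
    fun i j => (hmom (j + i)).1.const_mul _
  rw [e]
  refine ⟨integrable_finset_sum _ fun i _ => integrable_finset_sum _ fun j _ => hi i j, ?_⟩
  rw [integral_finset_sum _ fun i _ => integrable_finset_sum _ fun j _ => hi i j]
  have h1 : ∑ x ∈ box h x0, FZ c0 b lam V x0 p x ^ 2 =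
      ∑' x, FZ c0 b lam V x0 p x * FZ c0 b lam V x0 p x := by
    rw [tsum_eq_sum (s := box h x0) fun x hx => by
      rw [(FZ_props h c0 b lam V x0 p hp).1 x hx, zero_mul]]
    exact Finset.sum_congr rfl fun x _ => by ring
  rw [h1, tsum_FZ]
  refine Finset.sum_congr rfl fun i _ => ?_
  rw [integral_finset_sum _ fun j _ => hi i j]
  -- `Q^i FZ (x0) = ∑_j a_j Q^{i+j} δ (x0)`
  have h2 : (QZ c0 b lam V)^[i] (FZ c0 b lam V x0 p) x0 =
      ∑ j ∈ Finset.range (p.natDegree + 1),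
        p.coeff j * (QZ c0 b lam V)^[j + i] (Pi.single x0 1) x0 := by
    rw [← QZl_pow, FZ_eq, map_sum, Finset.sum_apply]
    refine Finset.sum_congr rfl fun j _ => ?_
    rw [map_smul, Pi.smul_apply, smul_eq_mul, ← Module.End.mul_apply, ← pow_add, QZl_pow,
      add_comm i j]
  rw [h2, Finset.mul_sum]
  refine Finset.sum_congr rfl fun j _ => ?_
  rw [integral_const_mul, (hmom (j + i)).2]
  ring

/-- **Main estimate.** Good sites at scale `h`: down to `κ = d/h²`. -/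
theorem main (d : ℕ) (hd : 2 ≤ d) (K : ℝ) (hK : 0 ≤ K) (C0 : ℝ) (hC0 : 0 < C0)
    (hD : Tor.Decay d (2 * (4 * (d : ℝ) + 1) + 2 * (K + 2)) C0) : ∃ C : ℝ, 0 < C ∧
    ∀ (h : ℕ) (lam Es : ℝ) (V : Zd d → ℝ) (x0 : Zd d), 0 < h → GoodAt h lam K Es V x0 →
      ∀ κ : ℝ, (d : ℝ) / (h : ℝ) ^ 2 ≤ κ → κ ≤ 1 →
      (∀ E : ℝ, E ≤ Es + κ → ∀ φ : Zd d → ℝ, Summable (fun x => φ x ^ 2) →
        (∀ x, HZ lam V φ x = E * φ x) → φ x0 ^ 2 ≤ C * κ ^ ((d : ℝ) / 2) * ∑' x, φ x ^ 2) ∧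
      ∀ m : Measure ℝ, IsFiniteMeasure m → (∀ j : ℕ, Integrable (fun E : ℝ => E ^ j) m ∧
        ∫ E, E ^ j ∂m = (HZ lam V)^[j] (Pi.single x0 1) x0) →
        m.real (Set.Iic (Es + κ)) ≤ C * κ ^ ((d : ℝ) / 2) := by
  set b : ℝ := 2 * (4 * (d : ℝ) + 1) + 2 * (K + 2) with hb
  have hd0 : (0 : ℝ) ≤ d := Nat.cast_nonneg d
  have hd2 : (2 : ℝ) ≤ d := by exact_mod_cast hd
  obtain ⟨C', hC', hpoly⟩ := Tor.polyT d hd b C0 hC0 (by linarith) hD
  refine ⟨(4 * C' + 1) * (4 * d) ^ ((d : ℝ) / 2), by positivity, ?_⟩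
  intro h lam Es V x0 hpos hgood κ hκh hκ1
  obtain ⟨E0, ψ, hE0, hψ, heig⟩ := hgood
  have hh0 : (0 : ℝ) < h := by exact_mod_cast hpos
  have hκ0 : 0 < κ := lt_of_lt_of_le (by positivity) hκh
  rcases le_or_gt ((d : ℝ) * κ) 1 with hdκ | hdκ
  swap
  · -- large `κ`
    have h1 : (1 : ℝ) ≤ (4 * C' + 1) * (4 * d) ^ ((d : ℝ) / 2) * κ ^ ((d : ℝ) / 2) := by
      rw [mul_assoc, ← Real.mul_rpow (by positivity) hκ0.le]
      have h2 : (1 : ℝ) ≤ (4 * d * κ) ^ ((d : ℝ) / 2) :=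
        Real.one_le_rpow (by nlinarith) (by positivity)
      nlinarith
    refine ⟨fun E _ φ hφ _ => ?_, fun m _ hm => ?_⟩
    · have h2 : φ x0 ^ 2 ≤ ∑' x, φ x ^ 2 := hφ.le_tsum x0 fun x _ => sq_nonneg _
      have h3 : 0 ≤ ∑' x, φ x ^ 2 := tsum_nonneg fun x => sq_nonneg _
      nlinarith
    · have h2 := (hm 0).2
      simp only [pow_zero, Function.iterate_zero, id, Pi.single_eq_same] at h2
      rw [integral_const, smul_eq_mul, mul_one] at h2
      have h3 : m.real (Set.Iic (Es + κ)) ≤ m.real Set.univ :=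
        measureReal_mono (Set.subset_univ _) (measure_ne_top m _)
      linarith
  -- the scale
  obtain ⟨a, ha1, ha2⟩ : ∃ a : ℕ, (4 : ℝ) ^ a ≤ 1 / (d * κ) ∧ 1 / (d * κ) < 4 ^ (a + 1) :=
    exists_nat_pow_near (by rw [le_div_iff₀ (by positivity)]; linarith) (by norm_num)
  obtain ⟨p, hp1, hp2, hp3⟩ := hpoly a
  have hdeg : p.natDegree ≤ h := by
    have h1 : (d * 2 ^ a : ℝ) ^ 2 ≤ (h : ℝ) ^ 2 := by
      have h2 : (4 : ℝ) ^ a * (d * κ) ≤ 1 := by
        rwa [le_div_iff₀ (by positivity)] at ha1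
      have h3 : (d : ℝ) ≤ κ * (h : ℝ) ^ 2 := by
        rwa [div_le_iff₀ (by positivity)] at hκh
      have h4 : (d * 2 ^ a : ℝ) ^ 2 = d ^ 2 * 4 ^ a := by
        rw [mul_pow, ← pow_mul, mul_comm a 2, pow_mul]; norm_num
      rw [h4]
      have h5 : (0 : ℝ) < 4 ^ a := by positivity
      calc (d : ℝ) ^ 2 * 4 ^ a = d * 4 ^ a * d := by ring
        _ ≤ d * 4 ^ a * (κ * (h : ℝ) ^ 2) := mul_le_mul_of_nonneg_left h3 (by positivity)
        _ = (4 ^ a * (d * κ)) * (h : ℝ) ^ 2 := by ring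
        _ ≤ 1 * (h : ℝ) ^ 2 := mul_le_mul_of_nonneg_right h2 (by positivity)
        _ = (h : ℝ) ^ 2 := one_mul _
    have h2 : (d * 2 ^ a : ℝ) ≤ h := le_of_sq_le_sq h1 hh0.le
    have h3 : d * 2 ^ a ≤ h := by exact_mod_cast h2
    exact hp1.trans h3
  set c0 : ℝ := E0 - 1 / ((2 * h + 1 : ℕ) : ℝ) ^ 2 with hc0
  have hLκ : 1 / ((2 * h + 1 : ℕ) : ℝ) ^ 2 ≤ κ := by
    refine le_trans ?_ hκh
    apply div_le_div₀ (by positivity) (by linarith) (by positivity)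
    push_cast
    nlinarith
  have hheat := hp3 (2 * h + 1) lam E0 (VT h V x0) ψ (fun x => (hψ x).1) (fun x => (hψ x).2) heig 0
  obtain ⟨hq1, hq2⟩ := FZ_props h c0 b lam V x0 p hdeg
  set f := FZ c0 b lam V x0 p with hf
  have hS : ∑ x ∈ box h x0, f x ^ 2 ≤ C' * (1 / 2 ^ (a * d)) := by
    rw [hq2]; exact hheat
  have hS0 : 0 ≤ ∑ x ∈ box h x0, f x ^ 2 := Finset.sum_nonneg fun x _ => sq_nonneg _
  -- in terms of `κ`
  have hpow : (1 : ℝ) / 2 ^ (a * d) ≤ (4 * d) ^ ((d : ℝ) / 2) * κ ^ ((d : ℝ) / 2) := by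
    rw [← Real.mul_rpow (by positivity) hκ0.le]
    have h1 : (1 : ℝ) / 4 ^ a ≤ 4 * d * κ := by
      rw [div_le_iff₀ (by positivity)]
      rw [div_lt_iff₀ (by positivity), pow_succ] at ha2
      nlinarith
    have h2 : ((1 : ℝ) / 4 ^ a) ^ ((d : ℝ) / 2) ≤ (4 * d * κ) ^ ((d : ℝ) / 2) :=
      Real.rpow_le_rpow (by positivity) h1 (by positivity)
    refine le_trans (le_of_eq ?_) h2
    rw [one_div, one_div, Real.inv_rpow (by positivity)]
    congr 1
    rw [show (4 : ℝ) = 2 ^ 2 by norm_num, ← pow_mul, ← Real.rpow_natCast 2 (2 * a),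
      ← Real.rpow_mul (by norm_num), ← Real.rpow_natCast]
    congr 1
    push_cast
    ring
  have hS1 : ∑ x ∈ box h x0, f x ^ 2 ≤ C' * ((4 * d) ^ ((d : ℝ) / 2) * κ ^ ((d : ℝ) / 2)) :=
    hS.trans (mul_le_mul_of_nonneg_left hpow hC'.le)
  have hnn : 0 ≤ (4 * (d : ℝ)) ^ ((d : ℝ) / 2) * κ ^ ((d : ℝ) / 2) := by positivity
  have hq : ∀ E : ℝ, E ≤ Es + κ → 1 / 2 ≤ p.eval (q c0 b E) := by
    intro E hE
    apply hp2
    unfold q
    have h1 : E - c0 ≤ (K + 2) * κ := by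
      have h2 := (abs_le.1 hE0).1
      have h3 : K / ((2 * h + 1 : ℕ) : ℝ) ^ 2 ≤ K * κ := by
        rw [div_eq_mul_one_div]
        exact mul_le_mul_of_nonneg_left hLκ hK
      rw [hc0]
      linarith
    have hb0 : 0 < b := by linarith
    have h4 : 1 / b * (E - c0) ≤ 1 / 2 * κ := by
      rw [one_div_mul_eq_div, div_le_iff₀ hb0]
      nlinarith
    have h5 : 1 / 2 * κ ≤ 1 / (2 * d * 4 ^ a) := by
      rw [le_div_iff₀ (by positivity)]
      rw [le_div_iff₀ (by positivity)] at ha1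
      nlinarith
    linarith
  refine ⟨fun E hE φ hφ hφE => ?_, fun m _ hm => ?_⟩
  · have h1 := eigen_FZ c0 b lam E V φ x0 p hφE
    rw [← hf] at h1
    have h2 : ∑' x, f x * φ x = ∑ x ∈ box h x0, f x * φ x :=
      tsum_eq_sum fun x hx => by rw [hq1 x hx, zero_mul]
    rw [h2] at h1
    have h3 := Finset.sum_mul_sq_le_sq_mul_sq (box h x0) f φ
    rw [h1] at h3
    have h4 : ∑ x ∈ box h x0, φ x ^ 2 ≤ ∑' x, φ x ^ 2 :=
      hφ.sum_le_tsum _ (fun x _ => sq_nonneg _)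
    have h5 : 0 ≤ ∑' x, φ x ^ 2 := tsum_nonneg fun x => sq_nonneg _
    have h6 := hq E hE
    have h7 : (1 / 2 : ℝ) ^ 2 * φ x0 ^ 2 ≤ (p.eval (q c0 b E) * φ x0) ^ 2 := by
      rw [mul_pow]
      exact mul_le_mul_of_nonneg_right (pow_le_pow_left₀ (by norm_num) h6 2) (sq_nonneg _)
    have h8 : (∑ x ∈ box h x0, f x ^ 2) * ∑ x ∈ box h x0, φ x ^ 2 ≤
        C' * ((4 * d) ^ ((d : ℝ) / 2) * κ ^ ((d : ℝ) / 2)) * ∑' x, φ x ^ 2 :=
      mul_le_mul hS1 h4 (Finset.sum_nonneg fun x _ => sq_nonneg _) (by positivity)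
    have h9 : 0 ≤ (4 * (d : ℝ)) ^ ((d : ℝ) / 2) * κ ^ ((d : ℝ) / 2) * ∑' x, φ x ^ 2 :=
      mul_nonneg hnn h5
    nlinarith
  · obtain ⟨hi, h1⟩ := spec_FZ h c0 b lam V x0 p hdeg m hm
    rw [← hf] at h1
    have h3 : m.real (Set.Iic (Es + κ)) * (1 / 4) ≤ ∫ E, p.eval (q c0 b E) ^ 2 ∂m := by
      have h4 : ∫ E in Set.Iic (Es + κ), (1 / 4 : ℝ) ∂m ≤
          ∫ E in Set.Iic (Es + κ), p.eval (q c0 b E) ^ 2 ∂m := by
        refine setIntegral_mono_on (integrable_const _).integrableOn hi.integrableOn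
          measurableSet_Iic fun E hE => ?_
        have h5 := hq E hE
        nlinarith
      rw [setIntegral_const, smul_eq_mul] at h4
      refine h4.trans (setIntegral_le_integral hi ?_)
      exact Filter.Eventually.of_forall fun E => sq_nonneg _
    rw [h1] at h3
    nlinarith

end Pool.Agent.Zk60.DL.Main
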