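import Pool.Agent.Y663.Mf
import Pool.Agent.Zk60.DL.Main

/-! # Dimension three: flat ground states with good probability, localization -/

set_option autoImplicit false

open scoped BigOperators ENNReal
open MeasureTheory

namespace Pool.Agent.Zk60.DL.Three

open Pool.Agent.H4R2
open Pool.Agent.H4R2.LO (Zd)

/-- two flat states have the same energy -/
theorem same_energy {d L : ℕ} [NeZero L] (lam : ℝ) (V : AE.T d L → ℝ) (E₁ E₂ : ℝ)
    (ψ₁ ψ₂ : AE.T d L → ℝ) (h1 : ∀ x, 1 ≤ ψ₁ x) (h2 : ∀ x, 1 ≤ ψ₂ x)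
    (e1 : ∀ x, AE.Hop lam V ψ₁ x = E₁ * ψ₁ x)
    (e2 : ∀ x, AE.Hop lam V ψ₂ x = E₂ * ψ₂ x) : E₁ = E₂ := by
  have hs := AE.Core.hop_symm lam V ψ₁ ψ₂
  have a1 : ∑ x, ψ₂ x * AE.Hop lam V ψ₁ x = E₁ * ∑ x, ψ₁ x * ψ₂ x := by
    rw [Finset.mul_sum]
    exact Finset.sum_congr rfl fun x _ => by rw [e1]; ring
  have a2 : ∑ x, ψ₁ x * AE.Hop lam V ψ₂ x = E₂ * ∑ x, ψ₁ x * ψ₂ x := by
    rw [Finset.mul_sum]
    exact Finset.sum_congr rfl fun x _ => by rw [e2]; ring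
  rw [a1, a2] at hs
  have hpos : 0 < ∑ x, ψ₁ x * ψ₂ x := by
    refine Finset.sum_pos (fun x _ => ?_) Finset.univ_nonempty
    have := h1 x
    have := h2 x
    positivity
  exact mul_right_cancel₀ hpos.ne' hs

/-- flat ground states on tori of side up to `k/(λ² log (1/λ))` with probability `1 - e^{-k/(λ² L)}`,
localization below the band edge -/
theorem side (M : ℝ) (hM : 0 < M) (η : ℝ) (hη : 0 < η) (hη' : η ≤ 1) :
    ∃ k K : ℝ, 0 < k ∧ k ≤ 1 / 4 ∧ 0 < K ∧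
    ∀ (μ : Measure ℝ) [IsProbabilityMeasure μ], μ (Set.Icc (-1) 1)ᶜ = 0 →
      μ ≤ ENNReal.ofReal M • (volume : Measure ℝ) →
    ∀ lam : ℝ, 0 < lam → lam ≤ k → ∃ Es : ℝ, |Es| ≤ lam ∧
      (∀ (L : ℕ) [NeZero L], (L : ℝ) * (lam ^ 2 * Real.log (1 / lam)) ≤ k →
        ∃ G : Set (AE.T 3 L → ℝ), MeasurableSet G ∧
          1 - Real.exp (-(k / (lam ^ 2 * L))) ≤ (Measure.pi fun _ : AE.T 3 L => μ).real G ∧
          ∀ V ∈ G, AE.Core.FlatE lam η (K / (L : ℝ) ^ 2) Es V) ∧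
      ∀ κ : ℝ, K * lam ^ 4 * Real.log (1 / lam) ^ 2 ≤ κ → κ ≤ 1 →
        ∀ᵐ ω ∂(Measure.infinitePi fun _ : Zd 3 => μ),
          LO.Main.Dec 3 (-1) (fun x => lam * ω x) (Set.Iic (Es - 2 * (3 : ℕ) - κ))
            (k * Real.sqrt κ / Real.log (2 / (κ * lam))) := by
  obtain ⟨k, K, hk, hk4, hK, HF⟩ := Pool.Agent.Y663.Mf.fin3 (M + 4 * M ^ 2) (by positivity) η hη hη'
  obtain ⟨A, hA, HA⟩ := Pool.Agent.Y663.Mg.good3
  obtain ⟨C2, hC2, Hflat⟩ := AE.Core2.gen 3 le_rfl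
  have hA0 : 0 < A := by linarith
  have hC20 : 0 < C2 := by linarith
  set δ : ℝ := min (1 / 8) (η / C2) with hδ
  have hδ0 : 0 < δ := by positivity
  have hδ8 : δ ≤ 1 / 8 := min_le_left _ _
  have hδC : δ ≤ η / C2 := min_le_right _ _
  set k' : ℝ := min k (δ ^ 2 / (32 * A)) with hk'
  have hk'0 : 0 < k' := by positivity
  have hk'k : k' ≤ k := min_le_left _ _
  have hk'δ : k' ≤ δ ^ 2 / (32 * A) := min_le_right _ _
  have hk'δ2 : k' * (32 * A) ≤ δ ^ 2 := by rwa [le_div_iff₀ (by positivity)] at hk'δ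
  refine ⟨k', K + 2, hk'0, hk'k.trans hk4, by linarith, ?_⟩
  intro μ _ hμ hdens lam hlam hlamk
  have hreg := LO.Lw.reg_bdd μ M hM hμ hdens
  have hlam4 : lam ≤ 1 / 4 := hlamk.trans (hk'k.trans hk4)
  have hlam1 : lam ≤ 1 := by linarith
  set l : ℝ := Real.log (1 / lam) with hl
  have hl1 : 1 ≤ l := by
    rw [hl, Real.le_log_iff_exp_le (by positivity)]
    have h1 := Real.exp_one_lt_d9
    rw [le_div_iff₀ hlam]
    nlinarith
  have hl0 : 0 < l := by linarith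
  obtain ⟨Es, hEs, H1, H2⟩ := HF μ hμ hreg lam hlam (hlamk.trans hk'k)
  refine ⟨Es, hEs, ?_, ?_⟩
  · intro L _ hL
    have hLpos' : (0 : ℝ) < L := AE.Core.L_pos (L := L)
    obtain ⟨G1, hG1, hP1, hV1⟩ := H1 L (hL.trans hk'k)
    obtain ⟨E, hE, G, hG, hP, hw⟩ := HA μ hμ lam δ (1 / (4 * (L : ℝ) ^ 2)) hlam hδ0 hδ8
      (by positivity) L le_rfl
    have hflat : ∀ V ∈ G, AE.Core.FlatE lam η (1 / (L : ℝ) ^ 2) E V := by
      intro V hV
      obtain ⟨w, hw1, hw2⟩ := hw V hV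
      exact Hflat L lam η E hη hη' V w (fun x => (hw1 x).trans hδC) hw2
    have hLle : (L : ℝ) ≤ lam⁻¹ ^ 2 := by
      have h1 : (L : ℝ) * lam ^ 2 ≤ 1 := by
        have h2 : (L : ℝ) * lam ^ 2 * 1 ≤ (L : ℝ) * lam ^ 2 * l := by gcongr
        have h3 : (L : ℝ) * lam ^ 2 * l = (L : ℝ) * (lam ^ 2 * l) := by ring
        linarith
      rw [inv_pow, ← one_div, le_div_iff₀ (by positivity)]
      exact h1
    have hsq : Real.sqrt (1 / (4 * (L : ℝ) ^ 2)) = 1 / (2 * L) := by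
      have : 1 / (4 * (L : ℝ) ^ 2) = (1 / (2 * L)) ^ 2 := by
        field_simp
        norm_num
      rw [this, Real.sqrt_sq (by positivity)]
    -- `8 l ≤ k' 8 / (λ² L)`
    set y : ℝ := k' / (lam ^ 2 * L) with hy
    have hy0 : 0 < y := by positivity
    have hly : l ≤ y := by
      rw [hy, le_div_iff₀ (by positivity)]
      calc l * (lam ^ 2 * L) = (L : ℝ) * (lam ^ 2 * l) := by ring
        _ ≤ k' := hL
    have hexp : 2 * (L : ℝ) ^ 3 * Real.exp (-(δ ^ 2 * (1 / (2 * (L : ℝ))) / (A * lam ^ 2))) ≤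
        Real.exp (-y) := by
      have h1 : 16 * y ≤ δ ^ 2 * (1 / (2 * (L : ℝ))) / (A * lam ^ 2) := by
        have e1 : 16 * y = (k' * (32 * A)) * (1 / (2 * (L : ℝ))) / (A * lam ^ 2) := by
          rw [hy]; field_simp; norm_num
        rw [e1]
        gcongr
      have h2 : (L : ℝ) ^ 3 ≤ (lam⁻¹ ^ 2) ^ 3 := pow_le_pow_left₀ hLpos'.le hLle 3
      have h3 : 2 * (lam⁻¹ ^ 2) ^ 3 ≤ lam⁻¹ ^ 7 := by
        have h4 : 2 ≤ lam⁻¹ := by
          rw [le_inv_comm₀ (by norm_num) hlam]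
          linarith
        calc 2 * (lam⁻¹ ^ 2) ^ 3 ≤ lam⁻¹ * (lam⁻¹ ^ 2) ^ 3 :=
              mul_le_mul_of_nonneg_right h4 (by positivity)
          _ = lam⁻¹ ^ 7 := by ring
      have h5 : lam⁻¹ ^ 7 = Real.exp (7 * l) := by
        rw [hl, one_div, ← Real.exp_log (inv_pos.2 hlam), ← Real.exp_nat_mul, Real.log_exp]
        norm_num
      have h6 : 2 * (L : ℝ) ^ 3 ≤ Real.exp (7 * l) := by rw [← h5]; linarith
      have h7 : Real.exp (-(δ ^ 2 * (1 / (2 * (L : ℝ))) / (A * lam ^ 2))) ≤ Real.exp (-(16 * y)) :=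
        Real.exp_le_exp.2 (by linarith)
      calc _ ≤ Real.exp (7 * l) * Real.exp (-(16 * y)) :=
            mul_le_mul h6 h7 (Real.exp_pos _).le (Real.exp_pos _).le
        _ = Real.exp (7 * l + -(16 * y)) := by rw [Real.exp_add]
        _ ≤ Real.exp (-y) := Real.exp_le_exp.2 (by linarith)
    rw [hsq] at hP
    have hPG : 1 - Real.exp (-y) ≤ (Measure.pi fun _ : AE.T 3 L => μ).real G := by linarith
    -- a common point
    have hne : (G ∩ G1).Nonempty := by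
      by_contra hcon
      rw [Set.not_nonempty_iff_eq_empty] at hcon
      have hdis : Disjoint G G1 := Set.disjoint_iff_inter_eq_empty.2 hcon
      have h1 := measureReal_union (μ := Measure.pi fun _ : AE.T 3 L => μ) hdis hG1
      have h2 : (Measure.pi fun _ : AE.T 3 L => μ).real (G ∪ G1) ≤ 1 := measureReal_le_one
      have h3 : Real.exp (-y) ≤ Real.exp (-1) := Real.exp_le_exp.2 (by linarith)
      have h4 : Real.exp (-1) ≤ 1 / 2 := by
        rw [Real.exp_neg, one_div]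
        apply inv_anti₀ (by norm_num)
        have := Real.add_one_le_exp (1 : ℝ)
        linarith
      linarith
    obtain ⟨V0, hV0, hV01⟩ := hne
    obtain ⟨Ea, ψa, ha1, ha2, ha3, _⟩ := hflat V0 hV0
    obtain ⟨Eb, ψb, hb1, hb2, hb3⟩ := hV1 V0 hV01
    have hab := same_energy lam V0 Ea Eb ψa ψb (fun x => (ha2 x).1) (fun x => (hb2 x).1) ha3 hb3
    refine ⟨G, hG, hPG, fun V hV => ?_⟩
    -- the energy of every good potential
    obtain ⟨E0, ψ, h1, h2, h3, h4⟩ := hflat V hV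
    refine ⟨E0, ψ, ?_, h2, h3, h4⟩
    rw [← hab] at hb1
    have e1 : E0 - Es = (E0 - E) - (Ea - E) + (Ea - Es) := by ring
    have e2 : (K + 2) / (L : ℝ) ^ 2 = 1 / (L : ℝ) ^ 2 + 1 / (L : ℝ) ^ 2 + K / (L : ℝ) ^ 2 := by
      ring
    rw [e1, e2]
    refine (abs_add_le _ _).trans (add_le_add ((abs_sub _ _).trans (add_le_add h1 ha1)) hb1)
  · intro κ hκ hκ1
    have hK' : K * lam ^ 4 * l ^ 2 ≤ κ := by
      refine le_trans ?_ hκ
      have : 0 ≤ lam ^ 4 * l ^ 2 := by positivity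
      nlinarith
    filter_upwards [H2 κ hK' hκ1] with ω hω
    refine LO.Main.dec_mono _ _ _ _ _ _ hω le_rfl ?_
    have hκ0 : 0 < κ := lt_of_lt_of_le (by positivity) hK'
    have hbase : 2 ≤ 2 / (κ * lam) := by
      rw [le_div_iff₀ (by positivity)]
      have : κ * lam ≤ 1 := by nlinarith
      linarith
    have hX : 0 < Real.log (2 / (κ * lam)) := Real.log_pos (by linarith)
    gcongr

end Pool.Agent.Zk60.DL.Three
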